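import Mathlib

/-!
# Distribution relations of the fractional part
-/

set_option autoImplicit false

namespace Pool.Agent.Q136.RH

/-- the sawtooth function -/
def saw (z : ℚ) : ℚ := Int.fract z - 1 / 2

theorem saw_add_int (z : ℚ) (n : ℤ) : saw (z + n) = saw z := by
  unfold saw
  rw [Int.fract_add_intCast]

theorem saw_neg {z : ℚ} (h : ∀ n : ℤ, z ≠ n) : saw (-z) = -saw z := by
  unfold saw
  have h1 : Int.fract z ≠ 0 := by
    intro h0
    apply h ⌊z⌋
    have := Int.floor_add_fract z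
    rw [h0, add_zero] at this
    exact this.symm
  rw [Int.fract_neg h1]
  ring

/-- a sum over a progression as a sum over a period -/
theorem sum_prog {L' n : ℕ} (hL : 0 < L') (hn : 0 < n) (f : ℤ → ℚ) (hf : ∀ z : ℤ, f (z + (L' * n : ℕ)) = f z) (w : ℤ) :
    ∑ k ∈ Finset.range n, f (w + L' * k) =
      ∑ v ∈ Finset.range (L' * n), if (L' : ℤ) ∣ (v - w) then f v else 0 := by
  have hper : ∀ (k : ℤ) (z : ℤ), f (z + k * (L' * n : ℕ)) = f z := by
    intro k z
    induction k using Int.induction_on generalizing z with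
    | zero => simp
    | succ i ih =>
      rw [add_mul, one_mul, ← add_assoc, hf, ih]
    | pred i ih =>
      have h1 := hf (z + (-(i : ℤ) - 1) * (L' * n : ℕ))
      rw [← h1, ← ih z]
      congr 1
      ring
  have hLn : (0 : ℤ) < ((L' * n : ℕ) : ℤ) := by exact_mod_cast Nat.mul_pos hL hn
  have hmod : ∀ z : ℤ, f (z % (L' * n : ℕ)) = f z := by
    intro z
    have h1 := hper (z / (L' * n : ℕ)) (z % (L' * n : ℕ))
    rw [← h1]
    congr 1
    have := Int.emod_add_mul_ediv z (L' * n : ℕ)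
    linarith
  rw [← Finset.sum_filter]
  refine Finset.sum_bij' (fun k _ => ((w + L' * k) % (L' * n : ℕ)).toNat)
    (fun v _ => ((((v : ℤ) - w) / L') % n).toNat) ?_ ?_ ?_ ?_ ?_
  · intro k hk
    have h0 : 0 ≤ (w + L' * k) % (L' * n : ℕ) := Int.emod_nonneg _ hLn.ne'
    have h1 : (w + L' * k) % (L' * n : ℕ) < (L' * n : ℕ) := Int.emod_lt_of_pos _ hLn
    rw [Finset.mem_filter, Finset.mem_range]
    refine ⟨by omega, ?_⟩
    rw [Int.toNat_of_nonneg h0]
    have h2 := Int.emod_add_mul_ediv (w + L' * k) (L' * n : ℕ)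
    refine ⟨k - n * ((w + L' * k) / (L' * n : ℕ)), ?_⟩
    push_cast at h2 ⊢
    linear_combination h2
  · intro v hv
    have hn' : (0 : ℤ) < n := by exact_mod_cast hn
    have h0 : 0 ≤ (((v : ℤ) - w) / L') % n := Int.emod_nonneg _ hn'.ne'
    have h1 : (((v : ℤ) - w) / L') % n < n := Int.emod_lt_of_pos _ hn'
    rw [Finset.mem_range]
    omega
  · intro k hk
    have hn' : (0 : ℤ) < n := by exact_mod_cast hn
    have hL' : (L' : ℤ) ≠ 0 := by exact_mod_cast hL.ne'
    rw [Finset.mem_range] at hk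
    have h0 : 0 ≤ (w + L' * k) % (L' * n : ℕ) := Int.emod_nonneg _ hLn.ne'
    rw [Int.toNat_of_nonneg h0]
    have h2 := Int.emod_add_mul_ediv (w + L' * k) (L' * n : ℕ)
    have h3 : (w + L' * k) % (L' * n : ℕ) - w = L' * (k - n * ((w + L' * k) / (L' * n : ℕ))) := by
      push_cast at h2 ⊢
      linear_combination h2
    rw [h3, Int.mul_ediv_cancel_left _ hL']
    have h4 : ((k : ℤ) - n * ((w + L' * k) / (L' * n : ℕ))) % n = k := by
      rw [Int.sub_mul_emod_self_left]
      exact Int.emod_eq_of_lt (by positivity) (by exact_mod_cast hk)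
    rw [h4]
    simp
  · intro v hv
    rw [Finset.mem_filter, Finset.mem_range] at hv
    obtain ⟨hv1, m, hm⟩ := hv
    have hn' : (0 : ℤ) < n := by exact_mod_cast hn
    have hL' : (L' : ℤ) ≠ 0 := by exact_mod_cast hL.ne'
    have h0 : 0 ≤ (((v : ℤ) - w) / L') % n := Int.emod_nonneg _ hn'.ne'
    rw [Int.toNat_of_nonneg h0, hm, Int.mul_ediv_cancel_left _ hL']
    have h2 := Int.emod_add_mul_ediv m n
    have h3 : w + L' * (m % n) = v + (L' * n : ℕ) * (-(m / n)) := by
      push_cast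
      have h5 : m % n = m - n * (m / n) := by linarith
      rw [h5]
      linear_combination -hm
    rw [h3, Int.add_mul_emod_self_left, Int.emod_eq_of_lt (by positivity) (by exact_mod_cast hv1)]
    simp
  · intro k hk
    have h0 : 0 ≤ (w + L' * k) % (L' * n : ℕ) := Int.emod_nonneg _ hLn.ne'
    rw [Int.toNat_of_nonneg h0, hmod]

/-- Hermite's identity -/
theorem saw_mul {n : ℕ} (hn : 0 < n) (z : ℚ) : saw (n * z) = ∑ k ∈ Finset.range n, saw (z + k / n) := by
  have hn' : (n : ℚ) ≠ 0 := by exact_mod_cast hn.ne'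
  set q := ⌊(n : ℚ) * z⌋ with hq
  set ρ := Int.fract ((n : ℚ) * z) with hρ
  have h0 : (n : ℚ) * z = q + ρ := (Int.floor_add_fract _).symm
  have hρ0 : 0 ≤ ρ := Int.fract_nonneg _
  have hρ1 : ρ < 1 := Int.fract_lt_one _
  have hz : z = (q + ρ) / n := by
    field_simp
    linear_combination h0
  -- as a function of an integer
  let f : ℤ → ℚ := fun a => saw ((a + ρ) / n)
  have h1 : ∑ k ∈ Finset.range n, saw (z + k / n) = ∑ k ∈ Finset.range n, f (q + (1 : ℕ) * k) := by
    refine Finset.sum_congr rfl fun k _ => ?_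
    show _ = saw (((q + (1 : ℕ) * k : ℤ) + ρ) / n)
    congr 1
    rw [hz]
    push_cast
    field_simp
    ring
  have hf : ∀ a : ℤ, f (a + (1 * n : ℕ)) = f a := by
    intro a
    show saw (((a + (1 * n : ℕ) : ℤ) + ρ) / n) = saw ((a + ρ) / n)
    have : (((a + (1 * n : ℕ) : ℤ) : ℚ) + ρ) / n = (a + ρ) / n + (1 : ℤ) := by
      push_cast
      field_simp
      ring
    rw [this, saw_add_int]
  rw [h1, sum_prog one_pos hn f hf q]
  simp only [Nat.cast_one, one_dvd, if_true, one_mul]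
  have h2 : ∀ k ∈ Finset.range n, f k = (k + ρ) / n - 1 / 2 := by
    intro k hk
    rw [Finset.mem_range] at hk
    show Int.fract (((k : ℤ) + ρ) / n) - 1 / 2 = _
    congr 1
    rw [Int.cast_natCast, Int.fract_eq_self]
    have hkq : (k : ℚ) + 1 ≤ n := by exact_mod_cast hk
    constructor
    · positivity
    · rw [div_lt_one (by positivity)]
      linarith
  rw [Finset.sum_congr rfl h2, Finset.sum_sub_distrib, ← Finset.sum_div, Finset.sum_add_distrib]
  simp only [Finset.sum_const, Finset.card_range, nsmul_eq_mul]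
  have h3 : (∑ k ∈ Finset.range n, (k : ℚ)) = n * (n - 1) / 2 := by
    have := Finset.sum_range_id_mul_two n
    have h4 : ((∑ k ∈ Finset.range n, k : ℕ) : ℚ) * 2 = n * (n - 1 : ℕ) := by exact_mod_cast this
    rw [Nat.cast_sub hn] at h4
    push_cast at h4
    linarith
  rw [h3]
  have h5 : saw (n * z) = ρ - 1 / 2 := rfl
  rw [h5]
  field_simp
  ring

/-- permutation of the terms -/
theorem sum_perm {n m : ℕ} (hn : 0 < n) (hm : m.Coprime n) (g : ℚ → ℚ) (hg : ∀ (z : ℚ) (k : ℤ), g (z + k) = g z) (z : ℚ) :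
    ∑ k ∈ Finset.range n, g (z + k / n) = ∑ k ∈ Finset.range n, g (z + m * (k / n)) := by
  have hn' : (n : ℚ) ≠ 0 := by exact_mod_cast hn.ne'
  symm
  refine Finset.sum_bij' (fun k _ => (m * k) % n) (fun k _ => ((m : ZMod n)⁻¹ * (k : ZMod n)).val) ?_ ?_ ?_ ?_ ?_
  · intro k hk
    exact Finset.mem_range.2 (Nat.mod_lt _ hn)
  · intro k hk
    have : NeZero n := ⟨hn.ne'⟩
    exact Finset.mem_range.2 (ZMod.val_lt _)
  · intro k hk
    have : NeZero n := ⟨hn.ne'⟩
    have h1 : ((m * k % n : ℕ) : ZMod n) = m * k := by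
      rw [ZMod.natCast_mod]
      push_cast
      rfl
    have h2 : (m : ZMod n)⁻¹ * m = 1 := by
      rw [mul_comm]
      exact ZMod.coe_mul_inv_eq_one m hm
    rw [h1, ← mul_assoc, h2, one_mul, ZMod.val_natCast, Nat.mod_eq_of_lt (Finset.mem_range.1 hk)]
  · intro k hk
    have : NeZero n := ⟨hn.ne'⟩
    have h2 : (m : ZMod n) * (m : ZMod n)⁻¹ = 1 := ZMod.coe_mul_inv_eq_one m hm
    have h3 : ((m * ((m : ZMod n)⁻¹ * (k : ZMod n)).val : ℕ) : ZMod n) = k := by
      push_cast
      rw [ZMod.natCast_val, ZMod.cast_id, ← mul_assoc, h2, one_mul]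
    have h4 := congrArg ZMod.val h3
    rw [ZMod.val_natCast, ZMod.val_natCast, Nat.mod_eq_of_lt (Finset.mem_range.1 hk)] at h4
    exact h4
  · intro k hk
    have h1 := Nat.div_add_mod (m * k) n
    have h2 : z + m * ((k : ℚ) / n) = z + ((m * k % n : ℕ) : ℚ) / n + ((m * k / n : ℕ) : ℤ) := by
      have h3 : (m : ℚ) * k = n * (m * k / n : ℕ) + (m * k % n : ℕ) := by exact_mod_cast h1.symm
      rw [Int.cast_natCast]
      field_simp
      linear_combination h3
    rw [h2, hg]

end Pool.Agent.Q136.RH
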