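import Pool.Agent.Q136.RH.Mon
import Pool.Agent.Q136.LR.Loc

/-!
# Monomials in gamma functions, exponentials and a periodic exponential
-/

set_option autoImplicit false

open Filter Topology

namespace Pool.Agent.Q136.RH

open Pool.Agent.Q23.DM Pool.Agent.Q136.LR

open Classical in
/-- the signed indicator function, rational coefficients -/
noncomputable def sq (c : ℚ) (x y : ℂ) : ℚ := if CosQ (c : ℂ) x y then (if 0 < c then 1 else -1) else 0

/-- from rational to complex coefficients -/
theorem ind_sq {r q : ℕ} (c : Fin r → ℚ) (x : Fin r → ℂ) (M : Fin q → Fin r → ℕ)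
    (h : ∀ m : Fin q → ℚ, (∀ y : ℂ, ∑ l, m l * ∑ i, (M l i : ℚ) * sq (c i) (x i) y = 0) → m = 0)
    (m : Fin q → ℂ) (hm : ∀ y : ℂ, ∑ l, m l * ((∑ i, (M l i : ℚ) * sq (c i) (x i) y : ℚ) : ℂ) = 0) : m = 0 := by
  funext l
  refine (Module.forall_dual_apply_eq_zero_iff ℚ (m l)).1 fun φ => ?_
  have h1 := h (fun i => φ (m i)) (by
    intro y
    have h2 := congrArg φ (hm y)
    rw [map_sum, map_zero] at h2
    refine Eq.trans (Finset.sum_congr rfl fun i _ => ?_) h2
    have h3 : m i * ((∑ j, (M i j : ℚ) * sq (c j) (x j) y : ℚ) : ℂ) = (∑ j, (M i j : ℚ) * sq (c j) (x j) y : ℚ) • m i := by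
      rw [Rat.smul_def, mul_comm]
    rw [h3, map_smul, smul_eq_mul, mul_comm])
  exact congrFun h1 l

/-- the functions -/
noncomputable def fw {r q u : ℕ} (c : Fin r → ℂ) (x : Fin r → ℂ) (M : Fin q → Fin r → ℕ) (l : Fin u → ℂ) (ω : ℂ) :
    Option (Fin q ⊕ Fin u) → ℂ → ℂ
  | none, z => Complex.exp (ω * z)
  | some y, z => gm c x M l y z

theorem fw_an {r q u : ℕ} (c x : Fin r → ℂ) (M : Fin q → Fin r → ℕ) (l : Fin u → ℂ) (ω : ℂ)
    (y : Option (Fin q ⊕ Fin u)) {z : ℂ} (hz : z ∈ Dom c x) : AnalyticAt ℂ (fw c x M l ω y) z := by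
  have h1 : ∀ i, AnalyticAt ℂ (fun z : ℂ => c i * z + x i) z := fun i =>
    (analyticAt_const.mul analyticAt_id).add analyticAt_const
  rcases y with _ | (k | j)
  · exact (analyticAt_const.mul analyticAt_id).cexp
  · show AnalyticAt ℂ (fun z : ℂ => ∏ i, Complex.Gamma (c i * z + x i) ^ M k i) z
    refine Finset.analyticAt_fun_prod _ fun i _ => AnalyticAt.pow ?_ _
    exact AnalyticAt.comp (g := Complex.Gamma) (f := fun z : ℂ => c i * z + x i) (gam_an (hz _)) (h1 _)
  · exact (analyticAt_const.mul analyticAt_id).cexp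

/-- the substitution -/
noncomputable def sb {q u : ℕ} (N w w' : ℂ) (g : Fin u → ℂ) :
    Option (Option (Fin q ⊕ Fin u)) → MvPolynomial (Option (Fin q ⊕ Fin u)) ℂ
  | none => MvPolynomial.C N * MvPolynomial.X none + MvPolynomial.C w
  | some none => MvPolynomial.C w'
  | some (some (Sum.inl k)) => MvPolynomial.X (some (Sum.inl k))
  | some (some (Sum.inr j)) => MvPolynomial.C (g j) * MvPolynomial.X (some (Sum.inr j))

theorem sb_eval {q u : ℕ} (N w w' : ℂ) (g : Fin u → ℂ) (v : Option (Fin q ⊕ Fin u) → ℂ)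
    (P : MvPolynomial (Option (Option (Fin q ⊕ Fin u))) ℂ) :
    MvPolynomial.eval v (MvPolynomial.aeval (sb N w w' g) P) =
      MvPolynomial.eval (fun o => MvPolynomial.eval v (sb N w w' g o)) P := by
  have h1 : (MvPolynomial.eval v).comp (MvPolynomial.aeval (sb N w w' g) :
      MvPolynomial (Option (Option (Fin q ⊕ Fin u))) ℂ →ₐ[ℂ] _).toRingHom =
      MvPolynomial.eval (fun o => MvPolynomial.eval v (sb N w w' g o)) := by
    refine MvPolynomial.ringHom_ext ?_ ?_
    · intro a
      simp
    · intro o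
      simp
  exact RingHom.congr_fun h1 P

theorem glob {r q u : ℕ} (c : Fin r → ℚ) (hc : ∀ i, c i ≠ 0) (x : Fin r → ℂ) (M : Fin q → Fin r → ℕ) (l : Fin u → ℂ)
    (ρ : ℚ) (hρ : ρ ≠ 0)
    (hl : ∀ (n : Fin u → ℤ) (k : ℚ), ∑ j, n j * l j = 2 * Real.pi * Complex.I * k → n = 0)
    (hind : ∀ m : Fin q → ℚ, (∀ y : ℂ, ∑ l, m l * ∑ i, (M l i : ℚ) * sq (c i) (x i) y = 0) → m = 0)
    (P : MvPolynomial (Option (Option (Fin q ⊕ Fin u))) ℂ)
    (hP : ∀ z ∈ Dom (fun i => (c i : ℂ)) x, MvPolynomial.eval (fun o => o.elim z fun y =>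
      fw (fun i => (c i : ℂ)) x M l (2 * Real.pi * Complex.I * ρ) y z) P = 0) : P = 0 := by
  have hcC : ∀ i, ((c i : ℂ)) ≠ 0 := fun i => by exact_mod_cast hc i
  -- a common denominator
  set N : ℕ := (∏ i, (c i).den) * ρ.den with hN
  have hN0 : N ≠ 0 := mul_ne_zero (Finset.prod_ne_zero_iff.2 fun i _ => (c i).den_ne_zero) ρ.den_ne_zero
  have hNC : (N : ℂ) ≠ 0 := Nat.cast_ne_zero.2 hN0
  have hp : ∀ i, ∃ p : ℤ, (p : ℂ) = c i * N := by
    intro i
    obtain ⟨k, hk⟩ := Finset.dvd_prod_of_mem (fun i => (c i).den) (Finset.mem_univ i)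
    refine ⟨(c i).num * (k * ρ.den), ?_⟩
    have h1 : (c i : ℂ) * ((c i).den : ℂ) = ((c i).num : ℂ) := by
      have := Rat.mul_den_eq_num (c i)
      exact_mod_cast congrArg (Rat.cast : ℚ → ℂ) this
    have h2 : (N : ℂ) = ((c i).den : ℂ) * k * ρ.den := by
      rw [hN]
      exact_mod_cast congrArg (fun z : ℕ => ((z * ρ.den : ℕ) : ℂ)) hk
    rw [h2]
    push_cast
    rw [← h1]
    ring
  choose p hp using hp
  have hp0 : ∀ i, p i ≠ 0 := by
    intro i h0
    have h1 := hp i
    rw [h0, Int.cast_zero] at h1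
    exact mul_ne_zero (hcC i) hNC h1.symm
  obtain ⟨p', hp'⟩ : ∃ p' : ℤ, (p' : ℂ) = ρ * N := by
    refine ⟨ρ.num * ((∏ i, (c i).den : ℕ) : ℤ), ?_⟩
    have h1 : (ρ : ℂ) * (ρ.den : ℂ) = (ρ.num : ℂ) := by
      have := Rat.mul_den_eq_num ρ
      exact_mod_cast congrArg (Rat.cast : ℚ → ℂ) this
    have h2 : (N : ℂ) = ((∏ i, (c i).den : ℕ) : ℂ) * ρ.den := by
      rw [hN]
      push_cast
      rfl
    rw [h2, Int.cast_mul, ← h1, Int.cast_natCast]
    ring
  set ω : ℂ := 2 * Real.pi * Complex.I * ρ with hω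
  -- the substitution at a general point
  have key : ∀ w : ℂ, (∀ i, ((c i : ℂ) * w + x i).im ≠ 0) →
      MvPolynomial.aeval (sb (q := q) (N : ℂ) w (Complex.exp (ω * w)) (fun j => Complex.exp (l j * w))) P = 0 := by
    intro w him
    refine seqMon p hp0 (fun i => c i * w + x i) him M (fun j => l j * N) ?_ ?_ _ ?_
    · intro e e' h
      obtain ⟨k, hk⟩ := Complex.exp_eq_exp_iff_exists_int.1 h
      have h1 := hl (fun j => (e j : ℤ) - (e' j : ℤ)) ((k : ℚ) / N) (by
        push_cast
        simp only [sub_mul, Finset.sum_sub_distrib]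
        have h2 : ∀ e : Fin u → ℕ, ∑ j, (e j : ℂ) * (l j * N) = (∑ j, (e j : ℂ) * l j) * N := by
          intro e
          rw [Finset.sum_mul]
          exact Finset.sum_congr rfl fun j _ => by ring
        rw [h2, h2] at hk
        field_simp
        linear_combination hk)
      funext j
      have h2 := congrFun h1 j
      simp only [Pi.zero_apply] at h2
      omega
    · intro m hm
      refine ind_sq c x M hind m fun y => ?_
      have h1 := hm ((y + w) / N)
      refine Eq.trans (Finset.sum_congr rfl fun k _ => ?_) h1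
      congr 1
      rw [Rat.cast_sum]
      refine Finset.sum_congr rfl fun i _ => ?_
      have h2 : CosQ (c i) (x i) y ↔ Cos (p i) (c i * w + x i) ((y + w) / N) := by
        have h3 : (p i : ℂ) * ((y + w) / N) = c i * y + c i * w := by
          rw [hp i]
          field_simp
        unfold CosQ Cos
        rw [h3]
        constructor
        · rintro ⟨n, hn⟩
          exact ⟨n, by rw [hn]; ring⟩
        · rintro ⟨n, hn⟩
          exact ⟨n, by linear_combination hn⟩
      have h4 : 0 < c i ↔ 0 < p i := by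
        have h5 : ((p i : ℚ)) = c i * N := by exact_mod_cast hp i
        have h6 : (0 : ℚ) < N := by exact_mod_cast Nat.pos_of_ne_zero hN0
        constructor
        · intro h
          have : (0 : ℚ) < (p i : ℚ) := by rw [h5]; exact mul_pos h h6
          exact_mod_cast this
        · intro h
          have h7 : (0 : ℚ) < (p i : ℚ) := by exact_mod_cast h
          rw [h5] at h7
          exact (mul_pos_iff_of_pos_right h6).1 h7
      unfold sq sg
      by_cases hC : CosQ (c i) (x i) y
      · rw [if_pos hC, if_pos (h2.1 hC)]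
        by_cases h0 : 0 < c i
        · rw [if_pos h0, if_pos (h4.1 h0)]
          simp
        · rw [if_neg h0, if_neg fun h => h0 (h4.2 h)]
          simp
      · rw [if_neg hC, if_neg fun h => hC (h2.2 h)]
        simp
    · intro n
      rw [sb_eval]
      have h3 : (N : ℂ) * n + w ∈ Dom (fun i => (c i : ℂ)) x := by
        intro i
        apply np_im
        have : (c i : ℂ) * (N * n + w) + x i = (p i : ℂ) * (n : ℂ) + (c i * w + x i) := by
          rw [hp i]
          ring
        show ((c i : ℂ) * (N * n + w) + x i).im ≠ 0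
        rw [this]
        have h4 : ((p i : ℂ) * (n : ℂ) + (c i * w + x i)).im = ((c i : ℂ) * w + x i).im := by
          rw [Complex.add_im]
          have : ((p i : ℂ) * (n : ℂ)).im = 0 := by simp
          rw [this, zero_add]
        rw [h4]
        exact him i
      rw [← hP _ h3]
      congr 2
      funext o
      have h5 : ∀ i, (p i : ℂ) * (n : ℂ) + (c i * w + x i) = (c i : ℂ) * (N * n + w) + x i := by
        intro i
        rw [hp i]
        ring
      rcases o with _ | (_ | (k | j))
      · simp [sb]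
      · simp only [sb, MvPolynomial.eval_C, Option.elim, fw]
        have h6 : ω * ((N : ℂ) * n + w) = ω * w + ((p' * n : ℤ) : ℂ) * (2 * Real.pi * Complex.I) := by
          push_cast
          rw [hp', hω]
          ring
        rw [h6, Complex.exp_add, Complex.exp_int_mul_two_pi_mul_I, mul_one]
      · simp [sb, fw, gm, h5]
      · simp only [sb, map_mul, MvPolynomial.eval_C, MvPolynomial.eval_X, Option.elim, fw, gm]
        rw [← Complex.exp_add]
        congr 1
        ring
  -- an infinite set of values of the periodic function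
  set S : Set ℝ := {τ : ℝ | ∀ i, (c i : ℝ) * τ + (x i).im ≠ 0} with hS
  have hSinf : S.Infinite := by
    have h1 : S = (⋃ i, {τ : ℝ | (c i : ℝ) * τ + (x i).im = 0})ᶜ := by
      ext τ
      simp [hS]
    rw [h1]
    refine Set.Finite.infinite_compl (Set.finite_iUnion fun i => ?_)
    refine (Set.finite_singleton (-(x i).im / (c i : ℝ))).subset ?_
    intro τ hτ
    have : (c i : ℝ) ≠ 0 := by exact_mod_cast hc i
    have hτ' : (c i : ℝ) * τ + (x i).im = 0 := hτ
    rw [Set.mem_singleton_iff]
    field_simp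
    linear_combination hτ'
  have hinj : Function.Injective fun τ : ℝ => Complex.exp (ω * (Complex.I * τ)) := by
    intro τ τ' h
    have h1 : ∀ τ : ℝ, ω * (Complex.I * τ) = ((-(2 * Real.pi * ρ * τ) : ℝ) : ℂ) := by
      intro τ
      rw [hω]
      push_cast
      have := Complex.I_mul_I
      linear_combination (2 * Real.pi * ρ * τ : ℂ) * this
    simp only [h1] at h
    rw [← Complex.ofReal_exp, ← Complex.ofReal_exp] at h
    have h2 := Real.exp_injective (Complex.ofReal_injective h)
    have h3 : (ρ : ℝ) ≠ 0 := by exact_mod_cast hρ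
    have h4 : (2 * Real.pi * ρ : ℝ) ≠ 0 := mul_ne_zero (by positivity) h3
    have h5 : (2 * Real.pi * ρ : ℝ) * τ = (2 * Real.pi * ρ : ℝ) * τ' := by linarith
    exact mul_left_cancel₀ h4 h5
  refine MvPolynomial.funext_set (fun o : Option (Option (Fin q ⊕ Fin u)) =>
    if o = some none then (fun τ : ℝ => Complex.exp (ω * (Complex.I * τ))) '' S else Set.univ) ?_ ?_
  · intro o
    split_ifs
    · exact hSinf.image hinj.injOn
    · exact Set.infinite_univ
  · intro v hv
    have h1 := hv (some none) (Set.mem_univ _)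
    simp only [if_true] at h1
    obtain ⟨τ, hτ, hτv⟩ := h1
    have him : ∀ i, ((c i : ℂ) * (Complex.I * τ) + x i).im ≠ 0 := by
      intro i
      have : ((c i : ℂ) * (Complex.I * τ) + x i).im = (c i : ℝ) * τ + (x i).im := by
        rw [Complex.add_im]
        congr 1
        have : (c i : ℂ) = ((c i : ℝ) : ℂ) := by push_cast; rfl
        rw [this]
        simp
      rw [this]
      exact hτ i
    have h2 := key (Complex.I * τ) him
    have h3 := sb_eval (q := q) (N : ℂ) (Complex.I * τ) (Complex.exp (ω * (Complex.I * τ)))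
      (fun j => Complex.exp (l j * (Complex.I * τ)))
      (fun o => o.elim ((v none - Complex.I * τ) / N) fun y =>
        Sum.elim (fun k => v (some (some (Sum.inl k))))
          (fun j => v (some (some (Sum.inr j))) / Complex.exp (l j * (Complex.I * τ))) y) P
    rw [h2, map_zero] at h3
    rw [map_zero, h3]
    congr 2
    funext o
    rcases o with _ | (_ | (k | j))
    · simp only [sb, map_add, map_mul, MvPolynomial.eval_C, MvPolynomial.eval_X, Option.elim]
      field_simp
      ring
    · simp only [sb, MvPolynomial.eval_C]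
      exact hτv.symm
    · simp [sb]
    · simp only [sb, map_mul, MvPolynomial.eval_C, MvPolynomial.eval_X, Option.elim, Sum.elim_inr]
      have := Complex.exp_ne_zero (l j * (Complex.I * τ))
      field_simp

theorem loc {r q u : ℕ} (c : Fin r → ℚ) (hc : ∀ i, c i ≠ 0) (x : Fin r → ℂ) (M : Fin q → Fin r → ℕ) (l : Fin u → ℂ)
    (ρ : ℚ) (hρ : ρ ≠ 0)
    (hl : ∀ (n : Fin u → ℤ) (k : ℚ), ∑ j, n j * l j = 2 * Real.pi * Complex.I * k → n = 0)
    (hind : ∀ m : Fin q → ℚ, (∀ y : ℂ, ∑ l, m l * ∑ i, (M l i : ℚ) * sq (c i) (x i) y = 0) → m = 0) :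
    ∀ t0 ∈ Dom (fun i => (c i : ℂ)) x,
      Y124.LocInd (fw (fun i => (c i : ℂ)) x M l (2 * Real.pi * Complex.I * ρ)) t0 := by
  have hcC : ∀ i, ((c i : ℂ)) ≠ 0 := fun i => by exact_mod_cast hc i
  exact Y771.RP.locInd_of _ (Dom (fun i => (c i : ℂ)) x) (dom_conn _ _ hcC) (fun y t ht => fw_an _ _ _ _ _ y ht)
    fun P hP => glob c hc x M l ρ hρ hl hind P hP

end Pool.Agent.Q136.RH
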