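import Pool.Agent.Q136.RH.Froz
import Pool.Agent.Q136.RH.Per
import Pool.Agent.Q136.LR.Fin

/-!
# Few exceptions for products of gamma values in several parameters
-/

set_option autoImplicit false

open Filter Topology NumberField MvPolynomial

namespace Pool.Agent.Q136.RH

open Pool.Agent.Q136.LR

theorem locInd_comp {κ κ' : Type} (e : κ' → κ) (he : Function.Injective e) (f : κ → ℂ → ℂ) (t0 : ℂ)
    (h : Y124.LocInd f t0) : Y124.LocInd (fun y => f (e y)) t0 := by
  intro P hP
  have h1 := h (rename (Option.map e) P) (by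
    filter_upwards [hP] with t ht
    rw [eval_rename]
    have : ((fun o : Option κ => o.elim t fun y => f y t) ∘ Option.map e) =
        fun o : Option κ' => o.elim t fun y => f (e y) t := by
      funext o
      cases o <;> rfl
    rw [this]
    exact ht)
  exact rename_injective _ (Option.map_injective he) (by rw [h1, map_zero])

/-- the base functions `e(ρ z)`, `exp(l_b z)` -/
noncomputable def fb {B : ℕ} (l : Fin B → ℂ) (ω : ℂ) : Option (Fin B) → ℂ → ℂ
  | none, z => Complex.exp (ω * z)
  | some b, z => Complex.exp (l b * z)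

/-- the embedding of the indices -/
def emb {B : ℕ} : Option (Fin B) → Option (Fin 1 ⊕ Fin B) := Option.map Sum.inr

theorem emb_inj {B : ℕ} : Function.Injective (emb (B := B)) := Option.map_injective Sum.inr_injective

theorem fb_emb {r B : ℕ} (c x : Fin r → ℂ) (M : Fin 1 → Fin r → ℕ) (l : Fin B → ℂ) (ω : ℂ) (o : Option (Fin B)) :
    fw c x M l ω (emb o) = fb l ω o := by
  funext z
  cases o <;> rfl

/-- the renaming of the variables -/
def rn {n B : ℕ} (k0 : Fin n) : Option (Fin n × Option (Fin B)) →
    (Fin 1 × Option (Fin 1 ⊕ Fin B)) ⊕ (Fin n × Option (Fin B))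
  | none => Sum.inl (0, some (Sum.inl 0))
  | some v => if v.1 = k0 then Sum.inl (0, emb v.2) else Sum.inr v

theorem rn_inj {n B : ℕ} (k0 : Fin n) : Function.Injective (rn (B := B) k0) := by
  have hne : ∀ o : Option (Fin B), (some (Sum.inl 0) : Option (Fin 1 ⊕ Fin B)) ≠ emb o := by
    intro o h
    cases o <;> simp [emb] at h
  rintro (_ | v) (_ | v') h
  · rfl
  · exfalso
    simp only [rn] at h
    split_ifs at h with h1
    exact hne _ (congrArg Prod.snd (Sum.inl_injective h))
  · exfalso
    simp only [rn] at h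
    split_ifs at h with h1
    exact hne _ (congrArg Prod.snd (Sum.inl_injective h)).symm
  · simp only [rn] at h
    split_ifs at h with h1 h2 h2
    · have := emb_inj (congrArg Prod.snd (Sum.inl_injective h))
      rw [Option.some_inj]
      exact Prod.ext (h1.trans h2.symm) this
    · rw [Sum.inr_injective h]

theorem norm_int (φ : ℚ →+* ℂ) (z : ℤ) : ‖φ ((z : 𝓞 ℚ) : ℚ)‖ = ‖(z : ℂ)‖ := by
  have : ((z : 𝓞 ℚ) : ℚ) = (z : ℚ) := by
    show algebraMap (𝓞 ℚ) ℚ (z : 𝓞 ℚ) = _
    rw [map_intCast]
  rw [this, map_intCast]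

theorem few (n r B : ℕ) (c : Fin r → ℚ) (hc : ∀ i, c i ≠ 0) (x : Fin r → ℚ) (j : Fin r → Fin n) (k0 : Fin n)
    (y0 : ℂ) (hy : ∑ i with j i = k0, sq (c i) (x i) y0 ≠ 0) (a b : ℝ)
    (hpole : ∀ i (t : ℝ), a ≤ t → t ≤ b → NP ((c i : ℂ) * t + x i))
    (l : Fin B → ℂ) (hl : ∀ (n : Fin B → ℤ) (k : ℚ), ∑ j, n j * l j = 2 * Real.pi * Complex.I * k → n = 0)
    (ρ : ℚ) (hρ : ρ ≠ 0) (d : ℕ) (A ε : ℝ) (hε : 0 < ε) (κ0 : ℂ) (hκ : κ0 ≠ 0) :
    ∃ C T₀ : ℝ, 0 ≤ C ∧ 1 ≤ T₀ ∧ ∀ T : ℝ, T₀ ≤ T → ∀ X : Finset ℚ,
      (∀ q ∈ X, a ≤ (q : ℝ) ∧ (q : ℝ) ≤ b ∧ (q.den : ℝ) ≤ T) →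
      ∀ E : Finset (Fin n → ℚ), (∀ t ∈ E, (∀ k, t k ∈ X) ∧
        ∃ (α : ℂ) (P : MvPolynomial (Option (Fin n × Option (Fin B))) ℤ),
          (∏ i, Complex.Gamma ((c i : ℂ) * (((t (j i) : ℚ) : ℝ) : ℂ) + x i)) = α * κ0 ∧ P ≠ 0 ∧ (∀ v, P.degreeOf v ≤ d) ∧
          (∀ s, ‖((P.coeff s : ℤ) : ℂ)‖ ≤ T ^ A) ∧
          aeval (fun o : Option (Fin n × Option (Fin B)) => o.elim α fun v =>
            fb l (2 * Real.pi * Complex.I * ρ) v.2 (((t v.1 : ℚ) : ℝ) : ℂ)) P = 0) →
      (E.card : ℝ) ≤ C * T ^ ε * (X.card : ℝ) ^ (n - 1) := by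
  classical
  set ω : ℂ := 2 * Real.pi * Complex.I * ρ with hω
  set xc : Fin r → ℂ := fun i => (x i : ℂ) with hxc
  set cc : Fin r → ℂ := fun i => (c i : ℂ) with hcc
  set M : Fin 1 → Fin r → ℕ := fun _ i => if j i = k0 then 1 else 0 with hM
  have hind : ∀ m : Fin 1 → ℚ, (∀ y : ℂ, ∑ l, m l * ∑ i, (M l i : ℚ) * sq (c i) (xc i) y = 0) → m = 0 := by
    intro m hm
    have h1 := hm y0
    rw [Fin.sum_univ_one] at h1
    have h2 : ∑ i, (M 0 i : ℚ) * sq (c i) (xc i) y0 = ∑ i with j i = k0, sq (c i) (x i) y0 := by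
      rw [Finset.sum_filter]
      refine Finset.sum_congr rfl fun i _ => ?_
      simp only [hM, hxc]
      by_cases h : j i = k0
      · rw [if_pos h, if_pos h, Nat.cast_one, one_mul]
      · rw [if_neg h, if_neg h, Nat.cast_zero, zero_mul]
    rw [h2] at h1
    funext i
    rw [Subsingleton.elim i 0]
    exact (mul_eq_zero.1 h1).resolve_right hy
  have hdom : ∀ t ∈ (fun x : ℝ => (x : ℂ)) '' Set.Icc a b, t ∈ Dom cc xc := by
    rintro _ ⟨t, ht, rfl⟩ i
    exact hpole i t ht.1 ht.2
  set f := fw cc xc M l ω with hf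
  have hloc : ∀ t ∈ (fun x : ℝ => (x : ℂ)) '' Set.Icc a b, Y124.LocInd f t := fun t ht =>
    loc c hc xc M l ρ hρ hl hind t (hdom t ht)
  have han : ∀ y, ∀ t ∈ (fun x : ℝ => (x : ℂ)) '' Set.Icc a b, AnalyticAt ℂ (f y) t := fun y t ht =>
    fw_an _ _ _ _ _ y (hdom t ht)
  obtain ⟨R1, C1, T1, hC1, H1⟩ := rat_any 1 n 1 d (fun y => f (emb y)) a b (fun y => han _)
    (fun t ht => locInd_comp emb emb_inj f t (hloc t ht)) A ε hε
  set g := Fintype.card (Fin (d + 1) × ((Fin n × Option (Fin B)) → Fin (d + 1))) with hg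
  let eg := Fintype.equivFin (Fin (d + 1) × ((Fin n × Option (Fin B)) → Fin (d + 1)))
  obtain ⟨R2, C2, T2, hC2, H2⟩ := rat_any 1 1 g d f a b han hloc A ε hε
  refine ⟨C1 + C2, max 1 (max T1 T2), add_nonneg hC1 hC2, le_max_left _ _, fun T hT X hX E hE => ?_⟩
  have hT1 : 1 ≤ T := (le_max_left _ _).trans hT
  have hTT1 : T1 ≤ T := (le_max_left _ _).trans ((le_max_right _ _).trans hT)
  have hTT2 : T2 ≤ T := (le_max_right _ _).trans ((le_max_right _ _).trans hT)
  have hT0 : 0 < T := by linarith
  have hTA : 0 ≤ T ^ A := Real.rpow_nonneg hT0.le _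
  set S1 : Set (Fin n → ℚ) := {q | (∀ j, q j ∈ X) ∧ ∃ P : MvPolynomial (Fin n × Option (Fin B)) ℂ,
    (∀ x, P.degreeOf x ≤ d) ∧
    (∀ s, ∃ c : Fin 1 → 𝓞 ℚ, (∀ i (φ : ℚ →+* ℂ), ‖φ (c i)‖ ≤ T ^ A) ∧
      P.coeff s = ∑ i, (fun _ : Fin 1 => (1 : ℂ)) i * (Rat.castHom ℂ) (c i)) ∧
    ∃ s₀, P.coeff s₀ ≠ 0 ∧ ‖aeval (fun x : Fin n × Option (Fin B) => f (emb x.2) (((q x.1 : ℚ) : ℝ) : ℂ)) P‖ ≤
      T ^ (-R1) * ‖P.coeff s₀‖} with hS1
  have hS1c : (S1.ncard : ℝ) ≤ C1 * T ^ ε * (X.card : ℝ) ^ (n - 1) :=
    H1 ℚ (by simp) (Rat.castHom ℂ) (fun _ => 1) T hTT1 X hX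
  have hS1f : S1.Finite := by
    refine (Finset.finite_toSet (Fintype.piFinset fun _ : Fin n => X)).subset ?_
    rintro q ⟨hq, -⟩
    rw [Finset.mem_coe, Fintype.mem_piFinset]
    exact hq
  -- the first part
  have hE1 : ((E.filter (· ∈ S1)).card : ℝ) ≤ C1 * T ^ ε * (X.card : ℝ) ^ (n - 1) := by
    refine le_trans ?_ hS1c
    rw [← Set.ncard_coe_finset]
    refine Nat.cast_le.2 (Set.ncard_le_ncard ?_ hS1f)
    intro q hq
    rw [Finset.coe_filter] at hq
    exact hq.2
  -- the second part
  set E2 := E.filter (· ∉ S1) with hE2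
  let res : (Fin n → ℚ) → ({k : Fin n // k ≠ k0} → ℚ) := fun t k => t k.1
  have hfib : ∀ ρ' ∈ E2.image res, (((E2.filter (fun t => res t = ρ')).card : ℕ) : ℝ) ≤ C2 * T ^ ε := by
    intro ρ' hρ'
    obtain ⟨ts, hts, htsρ⟩ := Finset.mem_image.1 hρ'
    have htsE : ts ∈ E := (Finset.mem_filter.1 hts).1
    set η : ℂ := (∏ i with j i ≠ k0, Complex.Gamma ((c i : ℂ) * (((ts (j i) : ℚ) : ℝ) : ℂ) + x i)) / κ0 with hη
    have hη0 : η ≠ 0 := by
      refine div_ne_zero (Finset.prod_ne_zero_iff.2 fun i _ => Complex.Gamma_ne_zero ?_) hκ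
      have h1 := hX _ ((hE ts htsE).1 (j i))
      exact hpole i _ h1.1 h1.2.1
    set ν : Fin n × Option (Fin B) → ℂ := fun v => fb l ω v.2 (((ts v.1 : ℚ) : ℝ) : ℂ) with hν
    set w : Fin 1 × Option (Fin 1 ⊕ Fin B) → ℂ := fun v => if v.2 = some (Sum.inl 0) then η else 1 with hw
    let ξ : Fin g → ℂ := fun i => η ^ ((eg.symm i).1 : ℕ) * ∏ v, ν v ^ ((eg.symm i).2 v : ℕ)
    have H := H2 ℚ (by simp) (Rat.castHom ℂ) ξ T hTT2 X hX
    rw [Nat.sub_self, pow_zero, mul_one] at H
    refine le_trans ?_ H
    rw [← Set.ncard_coe_finset]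
    have hinj : Set.InjOn (fun (t : Fin n → ℚ) (_ : Fin 1) => t k0) (E2.filter (fun t => res t = ρ') : Set (Fin n → ℚ)) := by
      intro t ht t' ht' h
      rw [Finset.mem_coe, Finset.mem_filter] at ht ht'
      funext k
      by_cases hk : k = k0
      · rw [hk]
        exact congrFun h 0
      · have h1 := congrFun (ht.2.trans ht'.2.symm) ⟨k, hk⟩
        exact h1
    rw [← hinj.ncard_image]
    refine Nat.cast_le.2 (Set.ncard_le_ncard ?_ ?_)
    · rintro _ ⟨t, ht, rfl⟩
      rw [Finset.mem_coe, Finset.mem_filter] at ht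
      obtain ⟨ht2, htρ⟩ := ht
      have htE : t ∈ E := (Finset.mem_filter.1 ht2).1
      have htS : t ∉ S1 := (Finset.mem_filter.1 ht2).2
      have hagree : ∀ k, k ≠ k0 → t k = ts k := by
        intro k hk
        exact congrFun (htρ.trans htsρ.symm) ⟨k, hk⟩
      obtain ⟨htX, α, P, hprod, hP0, hPd, hPh, hPv⟩ := hE t htE
      refine ⟨fun _ => htX k0, ?_⟩
      set Q := rename (rn k0) P with hQ
      have hQ0 : Q ≠ 0 := fun h => hP0 (rename_injective _ (rn_inj k0) (by rw [← hQ, h, map_zero]))
      have hQc : ∀ s, coeff s Q ≠ 0 → ∃ u, Finsupp.mapDomain (rn k0) u = s ∧ coeff u P = coeff s Q ∧ coeff u P ≠ 0 := by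
        intro s hs
        obtain ⟨u, hu, hu'⟩ := coeff_rename_ne_zero _ _ _ hs
        refine ⟨u, hu, ?_, hu'⟩
        rw [← hu, hQ, coeff_rename_mapDomain _ (rn_inj k0)]
      have hQd : ∀ s, coeff s Q ≠ 0 → ∀ v, s v ≤ d := by
        intro s hs v
        obtain ⟨u, hu, -, hu'⟩ := hQc s hs
        rw [← hu]
        by_cases hv : v ∈ Set.range (rn (B := B) k0)
        · obtain ⟨v', rfl⟩ := hv
          rw [Finsupp.mapDomain_apply (rn_inj k0)]
          exact (monomial_le_degreeOf v' (mem_support_iff.2 hu')).trans (hPd v')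
        · rw [Finsupp.mapDomain_of_notMem_range _ _ hv]
          exact Nat.zero_le _
      have hQh : ∀ s, ‖((coeff s Q : ℤ) : ℂ)‖ ≤ T ^ A := by
        intro s
        by_cases hs : coeff s Q = 0
        · rw [hs]
          simpa using hTA
        · obtain ⟨u, -, hu, -⟩ := hQc s hs
          rw [← hu]
          exact hPh u
      refine ⟨froz ν w Q, ?_, ?_, ?_⟩
      · intro v
        rw [degreeOf_le_iff]
        intro μ hμ
        rw [mem_support_iff, coeff_froz] at hμ
        obtain ⟨s, hs, -⟩ := Finset.exists_ne_zero_of_sum_ne_zero (right_ne_zero_of_mul hμ)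
        rw [Finset.mem_filter, mem_support_iff] at hs
        rw [← hs.2, el_apply]
        exact hQd s hs.1 _
      · intro μ
        refine ⟨fun i => if ((eg.symm i).1 : ℕ) = μ (0, some (Sum.inl 0)) then
          ((coeff (rb μ fun k => ((eg.symm i).2 k : ℕ)) Q : ℤ) : 𝓞 ℚ) else 0, ?_, ?_⟩
        · intro i φ
          beta_reduce
          split_ifs
          · rw [norm_int]
            exact hQh _
          · simpa using hTA
        · rw [coeff_box ν w Q μ d hQd]
          have h1 : ∏ i, w i ^ μ i = η ^ μ (0, some (Sum.inl 0)) := by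
            rw [Fintype.prod_eq_single ((0 : Fin 1), (some (Sum.inl 0) : Option (Fin 1 ⊕ Fin B)))]
            · rw [hw]
              simp
            · intro v hv
              have : v.2 ≠ some (Sum.inl 0) := fun h => hv (Prod.ext (Subsingleton.elim _ _) h)
              rw [hw]
              simp [this]
          rw [h1, ← Equiv.sum_comp eg]
          simp only [ξ, Equiv.symm_apply_apply]
          rw [Fintype.sum_prod_type, Finset.sum_comm, Finset.mul_sum]
          refine Finset.sum_congr rfl fun φ _ => ?_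
          by_cases hμ : μ (0, some (Sum.inl 0)) < d + 1
          · rw [Fintype.sum_eq_single (⟨μ (0, some (Sum.inl 0)), hμ⟩ : Fin (d + 1))]
            · simp only [if_true]
              have : (Rat.castHom ℂ) (((coeff (rb μ fun k => (φ k : ℕ)) Q : ℤ) : 𝓞 ℚ) : ℚ) =
                  ((coeff (rb μ fun k => (φ k : ℕ)) Q : ℤ) : ℂ) := by
                have h2 : (((coeff (rb μ fun k => (φ k : ℕ)) Q : ℤ) : 𝓞 ℚ) : ℚ) = ((coeff (rb μ fun k => (φ k : ℕ)) Q : ℤ) : ℚ) := by
                  show algebraMap (𝓞 ℚ) ℚ _ = _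
                  rw [map_intCast]
                rw [h2]
                simp
              rw [this]
              ring
            · intro e he
              have : ((e : Fin (d + 1)) : ℕ) ≠ μ (0, some (Sum.inl 0)) := fun h => he (Fin.ext h)
              rw [if_neg this]
              simp
          · have h2 : coeff (rb μ fun k => (φ k : ℕ)) Q = 0 := by
              by_contra h3
              have h4 := hQd _ h3 (Sum.inl (0, some (Sum.inl 0)))
              have h5 : (rb μ fun k => (φ k : ℕ)) (Sum.inl (0, some (Sum.inl 0))) = μ (0, some (Sum.inl 0)) := rfl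
              rw [h5] at h4
              omega
            rw [h2, Int.cast_zero, zero_mul, mul_zero]
            symm
            refine Finset.sum_eq_zero fun e _ => ?_
            have h3 : (if ((e : Fin (d + 1)) : ℕ) = μ (0, some (Sum.inl 0)) then
                ((coeff (rb μ fun k => (φ k : ℕ)) Q : ℤ) : 𝓞 ℚ) else 0) = 0 := by
              rw [h2, Int.cast_zero, ite_self]
            rw [h3]
            simp
      · -- a nonzero coefficient
        obtain ⟨s0, hs0⟩ := ne_zero_iff.1 hQ0
        refine ⟨el s0, ?_, ?_⟩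
        · rw [cq_eval]
          refine mul_ne_zero (Finset.prod_ne_zero_iff.2 fun i _ => pow_ne_zero _ ?_) ?_
          · rw [hw]
            dsimp only
            split_ifs
            · exact hη0
            · exact one_ne_zero
          · intro h0
            apply htS
            refine ⟨htX, MvPolynomial.map (Int.castRingHom ℂ) (cq Q (el s0)), ?_, ?_, er s0, ?_, ?_⟩
            · intro v
              rw [degreeOf_le_iff]
              intro φ hφ
              rw [mem_support_iff, coeff_map, cq_coeff] at hφ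
              have h1 : coeff (rb (el s0) φ) Q ≠ 0 := by
                intro h2
                apply hφ
                rw [h2, map_zero]
              exact hQd _ h1 (Sum.inr v)
            · intro φ
              refine ⟨fun _ => ((coeff (rb (el s0) φ) Q : ℤ) : 𝓞 ℚ), ?_, ?_⟩
              · intro i ψ
                rw [norm_int]
                exact hQh _
              · rw [Fin.sum_univ_one, coeff_map, cq_coeff, one_mul]
                have h2 : (((coeff (rb (el s0) φ) Q : ℤ) : 𝓞 ℚ) : ℚ) = ((coeff (rb (el s0) φ) Q : ℤ) : ℚ) := by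
                  show algebraMap (𝓞 ℚ) ℚ _ = _
                  rw [map_intCast]
                rw [h2]
                simp
            · rw [coeff_map, cq_coeff, rb_el_er]
              simpa using hs0
            · -- the value vanishes
              have h1 : aeval (fun x : Fin n × Option (Fin B) => f (emb x.2) (((t x.1 : ℚ) : ℝ) : ℂ))
                  (MvPolynomial.map (Int.castRingHom ℂ) (cq Q (el s0))) = aeval ν (cq Q (el s0)) := by
                rw [aeval_def, eval₂_map, aeval_def]
                have h2 : ((algebraMap ℂ ℂ).comp (Int.castRingHom ℂ)) = algebraMap ℤ ℂ := RingHom.ext_int _ _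
                rw [h2]
                -- only frozen variables with v.1 ≠ k0 occur
                refine eval₂_congr _ _ _ ?_
                intro v φ hv hφ
                rw [cq_coeff] at hφ
                obtain ⟨u, hu, -, -⟩ := hQc _ hφ
                have h3 : (rb (el s0) φ) (Sum.inr v) ≠ 0 := by
                  have : (rb (el s0) φ) (Sum.inr v) = φ v := rfl
                  rw [this]
                  exact Finsupp.mem_support_iff.1 hv
                have h4 : (Sum.inr v) ∈ Set.range (rn (B := B) k0) := by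
                  by_contra h5
                  rw [← hu, Finsupp.mapDomain_of_notMem_range _ _ h5] at h3
                  exact h3 rfl
                obtain ⟨v', hv'⟩ := h4
                have h5 : v.1 ≠ k0 := by
                  rcases v' with _ | v'
                  · simp [rn] at hv'
                  · simp only [rn] at hv'
                    split_ifs at hv' with h6
                    rw [← Sum.inr_injective hv']
                    exact h6
                show f (emb v.2) _ = fb l ω v.2 _
                rw [hf, fb_emb, hagree _ h5]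
              rw [h1, h0, norm_zero]
              positivity
        · -- the value of the frozen polynomial
          have hval : aeval (fun v : Fin 1 × Option (Fin 1 ⊕ Fin B) => f v.2 (((t k0 : ℚ) : ℝ) : ℂ)) (froz ν w Q) = 0 := by
            rw [froz_eval, hQ, aeval_rename, ← hPv]
            congr 2
            funext o
            rcases o with _ | v
            · show w (0, some (Sum.inl 0)) * f (some (Sum.inl 0)) (((t k0 : ℚ) : ℝ) : ℂ) = α
              have h1 : w (0, some (Sum.inl 0)) = η := by
                rw [hw]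
                simp
              have h2 : f (some (Sum.inl 0)) (((t k0 : ℚ) : ℝ) : ℂ) =
                  ∏ i with j i = k0, Complex.Gamma ((c i : ℂ) * (((t (j i) : ℚ) : ℝ) : ℂ) + x i) := by
                show ∏ i, Complex.Gamma (cc i * (((t k0 : ℚ) : ℝ) : ℂ) + xc i) ^ M 0 i = _
                rw [Finset.prod_filter]
                refine Finset.prod_congr rfl fun i _ => ?_
                rw [hM]
                dsimp only
                split_ifs with h3
                · rw [pow_one, h3]
                · rw [pow_zero]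
              have h3 : (∏ i with j i ≠ k0, Complex.Gamma ((c i : ℂ) * (((ts (j i) : ℚ) : ℝ) : ℂ) + x i)) =
                  ∏ i with j i ≠ k0, Complex.Gamma ((c i : ℂ) * (((t (j i) : ℚ) : ℝ) : ℂ) + x i) := by
                refine Finset.prod_congr rfl fun i hi => ?_
                rw [Finset.mem_filter] at hi
                rw [hagree _ hi.2]
              have h4 := Finset.prod_filter_mul_prod_filter_not Finset.univ (fun i => j i = k0)
                (fun i => Complex.Gamma ((c i : ℂ) * (((t (j i) : ℚ) : ℝ) : ℂ) + x i))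
              rw [h1, h2, hη, h3, div_mul_eq_mul_div, div_eq_iff hκ, ← hprod, ← h4]
              ring
            · show (Sum.elim (fun i => w i * f i.2 (((t k0 : ℚ) : ℝ) : ℂ)) ν ∘ rn k0) (some v) = _
              rw [Function.comp_apply]
              simp only [rn]
              split_ifs with h1
              · have h2 : w (0, emb v.2) = 1 := by
                  rw [hw]
                  have : emb v.2 ≠ some (Sum.inl 0) := by
                    intro h
                    rcases v with ⟨_, _ | _⟩ <;> simp [emb] at h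
                  simp [this]
                rw [Sum.elim_inl, h2, one_mul]
                show f (emb v.2) _ = fb l ω v.2 _
                rw [hf, fb_emb, ← h1]
              · rw [Sum.elim_inr]
                show fb l ω v.2 _ = fb l ω v.2 _
                rw [hagree _ h1]
          rw [hval, norm_zero]
          positivity
    · refine (Finset.finite_toSet (Fintype.piFinset fun _ : Fin 1 => X)).subset ?_
      rintro q ⟨hq, -⟩
      rw [Finset.mem_coe, Fintype.mem_piFinset]
      exact hq
  have hE2c : (E2.card : ℝ) ≤ C2 * T ^ ε * (X.card : ℝ) ^ (n - 1) := by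
    have h1 : E2.card = ∑ ρ' ∈ E2.image res, (E2.filter (fun t => res t = ρ')).card :=
      Finset.card_eq_sum_card_image res E2
    rw [h1]
    push_cast
    refine (Finset.sum_le_sum hfib).trans ?_
    rw [Finset.sum_const, nsmul_eq_mul, mul_comm]
    refine mul_le_mul_of_nonneg_left ?_ (mul_nonneg hC2 (Real.rpow_nonneg hT0.le _))
    have h2 : (E2.image res).card ≤ X.card ^ (n - 1) := by
      have h3 : E2.image res ⊆ Fintype.piFinset fun _ : {k : Fin n // k ≠ k0} => X := by
        intro ρ' hρ'
        obtain ⟨ts, hts, rfl⟩ := Finset.mem_image.1 hρ'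
        rw [Fintype.mem_piFinset]
        intro k
        exact (hE ts (Finset.mem_filter.1 hts).1).1 k.1
      refine (Finset.card_le_card h3).trans ?_
      rw [Fintype.card_piFinset, Finset.prod_const, Finset.card_univ, Fintype.card_subtype_compl, Fintype.card_fin,
        Fintype.card_subtype_eq]
    exact_mod_cast h2
  have h3 : E.card = (E.filter (· ∈ S1)).card + E2.card := by
    rw [hE2]
    exact (Finset.card_filter_add_card_filter_not (· ∈ S1)).symm
  rw [h3]
  push_cast
  calc ((E.filter (· ∈ S1)).card : ℝ) + (E2.card : ℝ) ≤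
      C1 * T ^ ε * (X.card : ℝ) ^ (n - 1) + C2 * T ^ ε * (X.card : ℝ) ^ (n - 1) := add_le_add hE1 hE2c
    _ = (C1 + C2) * T ^ ε * (X.card : ℝ) ^ (n - 1) := by ring

end Pool.Agent.Q136.RH
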