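import Pool.Agent.Q136.RH.Dist
import Pool.Agent.Q136.RH.Per

/-!
# Cancelling signed indicator functions give Rohrlich's identity
-/

set_option autoImplicit false

namespace Pool.Agent.Q136.RH

open Pool.Agent.Q136.LR

theorem na_pos {z : ℤ} (h : 0 < z) : ((z.natAbs : ℕ) : ℚ) = z := by
  rw [Nat.cast_natAbs, abs_of_pos h]

theorem na_neg {z : ℤ} (h : z < 0) : ((z.natAbs : ℕ) : ℚ) = -z := by
  rw [Nat.cast_natAbs, abs_of_neg h]
  push_cast
  rfl

theorem exists_coprime (m D K : ℕ) (hD : 0 < D) (hK : 0 < K) (h : m.Coprime D) : ∃ j : ℕ, (m + D * j).Coprime K := by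
  have : NeZero (D * K) := ⟨(Nat.mul_pos hD hK).ne'⟩
  have : NeZero D := ⟨hD.ne'⟩
  obtain ⟨u, hu⟩ := ZMod.unitsMap_surjective (Dvd.intro K rfl : D ∣ D * K) (ZMod.unitOfCoprime m h)
  have h1 : ((u : ZMod (D * K)).val : ZMod D) = m := by
    have h2 := congrArg Units.val hu
    rw [ZMod.unitsMap_val, ZMod.coe_unitOfCoprime] at h2
    rw [ZMod.natCast_val]
    exact h2
  have h2 : ((u : ZMod (D * K)).val).Coprime (D * K) := ZMod.val_coe_unit_coprime u
  have h3 : (u : ZMod (D * K)).val ≡ m [MOD D] := (ZMod.natCast_eq_natCast_iff _ _ _).1 h1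
  -- enlarge
  set v := (u : ZMod (D * K)).val with hv
  have h4 : ∃ j : ℕ, v + D * K * m = m + D * j := by
    have h5 : m ≡ v + D * K * m [MOD D] := by
      have : v + D * K * m ≡ v + 0 [MOD D] := Nat.ModEq.add_left _ (by
        rw [Nat.ModEq, Nat.zero_mod, mul_assoc, Nat.mul_mod_right])
      rw [add_zero] at this
      exact h3.symm.trans this.symm
    have h6 : m ≤ v + D * K * m := by
      have : 1 ≤ D * K := Nat.mul_pos hD hK
      nlinarith
    obtain ⟨j, hj⟩ := (Nat.modEq_iff_dvd' h6).1 h5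
    exact ⟨j, by omega⟩
  obtain ⟨j, hj⟩ := h4
  refine ⟨j, ?_⟩
  rw [← hj]
  have h7 : (v + D * K * m).Coprime (D * K) := by
    rw [Nat.coprime_add_mul_left_left]
    exact h2
  exact Nat.Coprime.coprime_mul_left_right h7

theorem ident {r : ℕ} (S : Finset (Fin r)) (c : Fin r → ℚ) (hc : ∀ i, c i ≠ 0) (x : Fin r → ℚ)
    (hA : ∀ y : ℂ, ∑ i ∈ S, sq (c i) (x i) y = 0) (t : ℚ) (hni : ∀ i ∈ S, ∀ n : ℤ, c i * t + x i ≠ n)
    (D : ℕ) (hD : 0 < D) (hDa : ∀ i ∈ S, ∃ k : ℤ, D * (c i * t + x i) = k) (m : ℕ) (hm : m.Coprime D) :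
    ∑ i ∈ S, saw (m * (c i * t + x i)) = 0 := by
  set Q : ℕ := ∏ i, (c i).den with hQ
  have hQ0 : Q ≠ 0 := Finset.prod_ne_zero_iff.2 fun i _ => (c i).den_ne_zero
  have hQq : (Q : ℚ) ≠ 0 := Nat.cast_ne_zero.2 hQ0
  have hp : ∀ i, ∃ p : ℤ, (p : ℚ) = c i * Q := by
    intro i
    obtain ⟨k, hk⟩ := Finset.dvd_prod_of_mem (fun i => (c i).den) (Finset.mem_univ i)
    refine ⟨(c i).num * k, ?_⟩
    have h1 := Rat.mul_den_eq_num (c i)
    have h2 : (Q : ℚ) = ((c i).den : ℚ) * k := by
      rw [hQ]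
      exact_mod_cast hk
    rw [h2, ← mul_assoc, h1]
    push_cast
    rfl
  choose p hp using hp
  have hp0 : ∀ i, p i ≠ 0 := by
    intro i h0
    have h1 := hp i
    rw [h0, Int.cast_zero] at h1
    exact mul_ne_zero (hc i) hQq h1.symm
  set K : ℕ := ∏ i, (p i).natAbs with hK
  have hK0 : 0 < K := Finset.prod_pos fun i _ => Int.natAbs_pos.2 (hp0 i)
  obtain ⟨j, hj⟩ := exists_coprime m D K hD hK0 hm
  set m' := m + D * j with hm'
  have hmD : m'.Coprime D := by
    rw [hm', Nat.coprime_add_mul_left_left]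
    exact hm
  -- replace m by m'
  have h1 : ∀ i ∈ S, saw (m * (c i * t + x i)) = saw (m' * (c i * t + x i)) := by
    intro i hi
    obtain ⟨k, hk⟩ := hDa i hi
    have : (m' : ℚ) * (c i * t + x i) = m * (c i * t + x i) + ((j * k : ℤ) : ℚ) := by
      rw [hm']
      push_cast
      linear_combination (j : ℚ) * hk
    rw [this, saw_add_int]
  rw [Finset.sum_congr rfl h1]
  -- the period
  set E : ℕ := ∏ i, (x i).den with hE
  have hE0 : 0 < E := Finset.prod_pos fun i _ => (x i).den_pos
  set L : ℕ := E * K with hL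
  have hL0 : 0 < L := Nat.mul_pos hE0 hK0
  have hLq : (L : ℚ) ≠ 0 := by exact_mod_cast hL0.ne'
  have hdiv : ∀ i, ∃ L' : ℕ, L = L' * (p i).natAbs := by
    intro i
    obtain ⟨k, hk⟩ := Finset.dvd_prod_of_mem (fun i => (p i).natAbs) (Finset.mem_univ i)
    exact ⟨E * k, by rw [hL, hK, hk]; ring⟩
  choose L' hL' using hdiv
  have hL'0 : ∀ i, 0 < L' i := by
    intro i
    refine Nat.pos_of_ne_zero fun h0 => ?_
    rw [hL' i, h0, zero_mul] at hL0
    exact lt_irrefl _ hL0
  have hw : ∀ i, ∃ w : ℤ, (w : ℚ) = L * (x i / p i) := by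
    intro i
    obtain ⟨k, hk⟩ := Finset.dvd_prod_of_mem (fun i => (x i).den) (Finset.mem_univ i)
    obtain ⟨k', hk'⟩ := Finset.dvd_prod_of_mem (fun i => (p i).natAbs) (Finset.mem_univ i)
    have h2 : (p i : ℤ) ∣ (K : ℤ) := by
      rw [hK, hk', Nat.cast_mul]
      exact Dvd.dvd.mul_right (Int.dvd_natAbs_self) _
    obtain ⟨k'', hk''⟩ := h2
    refine ⟨(x i).num * k * k'', ?_⟩
    have h3 := Rat.mul_den_eq_num (x i)
    have h4 : (E : ℚ) = ((x i).den : ℚ) * k := by
      rw [hE]
      exact_mod_cast hk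
    have h5 : (K : ℚ) = (p i : ℚ) * k'' := by exact_mod_cast congrArg (Int.cast : ℤ → ℚ) hk''
    have h6 : (p i : ℚ) ≠ 0 := by exact_mod_cast hp0 i
    rw [hL]
    push_cast
    rw [h4, h5, ← h3]
    field_simp
  choose w hw using hw
  set v : ℚ := t / Q with hv
  set g : ℚ → ℚ := fun y => saw (m' * (v + y)) with hg
  have hgper : ∀ (z : ℚ) (k : ℤ), g (z + k) = g z := by
    intro z k
    show saw (m' * (v + (z + k))) = saw (m' * (v + z))
    have : (m' : ℚ) * (v + (z + k)) = m' * (v + z) + ((m' * k : ℤ) : ℚ) := by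
      push_cast
      ring
    rw [this, saw_add_int]
  have key : ∀ i ∈ S, saw (m' * (c i * t + x i)) =
      ∑ a ∈ Finset.range L, g (a / L) * sq (c i) (x i) (((Q * (a / L) : ℚ)) : ℂ) := by
    intro i hi
    have hpi : (p i : ℚ) ≠ 0 := by exact_mod_cast hp0 i
    have hn0 : 0 < (p i).natAbs := Int.natAbs_pos.2 (hp0 i)
    have hnq : (((p i).natAbs : ℕ) : ℚ) ≠ 0 := by exact_mod_cast hn0.ne'
    have hci : c i = p i / Q := by
      rw [hp i]
      field_simp
    have hcop : m'.Coprime (p i).natAbs := Nat.Coprime.coprime_dvd_right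
      (Finset.dvd_prod_of_mem (fun i => (p i).natAbs) (Finset.mem_univ i)) hj
    -- the sum
    have h2 : saw (((p i).natAbs : ℕ) * (m' * (v + x i / p i))) =
        ∑ k ∈ Finset.range (p i).natAbs, g (x i / p i + k / ((p i).natAbs : ℕ)) := by
      rw [saw_mul hn0, sum_perm hn0 hcop saw saw_add_int]
      refine Finset.sum_congr rfl fun k _ => ?_
      show _ = saw (m' * (v + (x i / p i + k / ((p i).natAbs : ℕ))))
      congr 1
      ring
    have h3 : ∑ k ∈ Finset.range (p i).natAbs, g (x i / p i + k / ((p i).natAbs : ℕ)) =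
        ∑ a ∈ Finset.range L, if (L' i : ℤ) ∣ (a - w i) then g (a / L) else 0 := by
      let f : ℤ → ℚ := fun a => g (a / L)
      have hf : ∀ z : ℤ, f (z + (L' i * (p i).natAbs : ℕ)) = f z := by
        intro z
        rw [← hL' i]
        show g (((z + (L : ℕ) : ℤ) : ℚ) / L) = g (z / L)
        have : ((z + (L : ℕ) : ℤ) : ℚ) / L = z / L + (1 : ℤ) := by
          push_cast
          field_simp
        rw [this, hgper]
      have h4 := sum_prog (hL'0 i) hn0 f hf (w i)
      rw [← hL' i] at h4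
      have h5 : ∀ a : ℕ, f (a : ℤ) = g (a / L) := fun a => by
        show g (((a : ℤ) : ℚ) / L) = _
        rw [Int.cast_natCast]
      simp only [h5] at h4
      rw [← h4]
      refine Finset.sum_congr rfl fun k _ => ?_
      show _ = g (((w i + L' i * k : ℤ) : ℚ) / L)
      congr 1
      have h6 : (L : ℚ) = L' i * ((p i).natAbs : ℕ) := by exact_mod_cast congrArg (Nat.cast : ℕ → ℚ) (hL' i)
      push_cast
      rw [hw i, h6]
      have : (L' i : ℚ) ≠ 0 := by exact_mod_cast (hL'0 i).ne'
      field_simp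
    have hcos : ∀ a : ℕ, (L' i : ℤ) ∣ (a - w i) ↔ CosQ (c i : ℂ) (x i : ℂ) (((Q * (a / L) : ℚ)) : ℂ) := by
      intro a
      have h6 : (L : ℚ) = L' i * ((p i).natAbs : ℕ) := by exact_mod_cast congrArg (Nat.cast : ℕ → ℚ) (hL' i)
      have hL'q : (L' i : ℚ) ≠ 0 := by exact_mod_cast (hL'0 i).ne'
      have h7 : c i * (Q * (a / L)) - x i = p i * ((a - w i) / L) := by
        rw [hci, hw i]
        field_simp
      have h8 : CosQ (c i : ℂ) (x i : ℂ) (((Q * (a / L) : ℚ)) : ℂ) ↔ ∃ n : ℤ, c i * (Q * (a / L)) - x i = n := by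
        unfold CosQ
        constructor
        · rintro ⟨n, hn⟩
          refine ⟨n, ?_⟩
          have : c i * (Q * (a / L)) = x i + n := by exact_mod_cast hn
          linear_combination this
        · rintro ⟨n, hn⟩
          refine ⟨n, ?_⟩
          have : c i * (Q * (a / L)) = x i + n := by linear_combination hn
          exact_mod_cast this
      rw [h8, h7]
      have hs : ∃ s : ℤ, s * s = 1 ∧ (p i : ℚ) = s * ((p i).natAbs : ℕ) := by
        rcases lt_or_gt_of_ne (hp0 i) with h | h
        · refine ⟨-1, by norm_num, ?_⟩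
          have h9 := na_neg h
          rw [h9]
          push_cast
          ring
        · refine ⟨1, by norm_num, ?_⟩
          have h9 := na_pos h
          rw [h9]
          push_cast
          ring
      obtain ⟨s, hs1, hs2⟩ := hs
      have hs1q : (s : ℚ) * s = 1 := by exact_mod_cast hs1
      have h9 : (p i : ℚ) * ((a - w i) / L) = s * ((a - w i) / L' i) := by
        rw [hs2, h6]
        field_simp
      rw [h9]
      constructor
      · rintro ⟨n, hn⟩
        have hn' : ((a : ℚ) - w i) = L' i * n := by exact_mod_cast congrArg (Int.cast : ℤ → ℚ) hn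
        refine ⟨s * n, ?_⟩
        rw [hn']
        push_cast
        field_simp
      · rintro ⟨n, hn⟩
        refine ⟨s * n, ?_⟩
        have h10 : ((a : ℚ) - w i) = L' i * (s * n) := by
          rw [← hn, ← mul_assoc (s : ℚ), hs1q, one_mul]
          field_simp
        exact_mod_cast h10
    have hsign : ∀ a : ℕ, sq (c i) (x i) (((Q * (a / L) : ℚ)) : ℂ) =
        (if (L' i : ℤ) ∣ (a - w i) then 1 else 0) * (if 0 < p i then 1 else -1) := by
      intro a
      have h4 : 0 < c i ↔ 0 < p i := by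
        have h6 : (0 : ℚ) < Q := by exact_mod_cast Nat.pos_of_ne_zero hQ0
        constructor
        · intro h
          have : (0 : ℚ) < (p i : ℚ) := by rw [hp i]; exact mul_pos h h6
          exact_mod_cast this
        · intro h
          have h7 : (0 : ℚ) < (p i : ℚ) := by exact_mod_cast h
          rw [hp i] at h7
          exact (mul_pos_iff_of_pos_right h6).1 h7
      unfold sq
      by_cases h : CosQ (c i : ℂ) (x i : ℂ) (((Q * (a / L) : ℚ)) : ℂ)
      · rw [if_pos h, if_pos ((hcos a).2 h), one_mul]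
        by_cases h0 : 0 < c i
        · rw [if_pos h0, if_pos (h4.1 h0)]
        · rw [if_neg h0, if_neg fun h => h0 (h4.2 h)]
      · rw [if_neg h, if_neg fun h' => h ((hcos a).1 h'), zero_mul]
    have h10 : ∑ a ∈ Finset.range L, g (a / L) * sq (c i) (x i) (((Q * (a / L) : ℚ)) : ℂ) =
        (if 0 < p i then 1 else -1) * saw (((p i).natAbs : ℕ) * (m' * (v + x i / p i))) := by
      rw [h2, h3, Finset.mul_sum]
      refine Finset.sum_congr rfl fun a _ => ?_
      rw [hsign a]
      split_ifs <;> ring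
    rw [h10]
    have h11 : (c i * t + x i) = p i * (v + x i / p i) := by
      rw [hci, hv]
      field_simp
    by_cases h0 : 0 < p i
    · rw [if_pos h0, one_mul]
      have h9 := na_pos h0
      rw [h11, h9]
      congr 1
      ring
    · rw [if_neg h0]
      have h9 := na_neg (lt_of_le_of_ne (not_lt.1 h0) (hp0 i))
      have h12 : ∀ n : ℤ, (m' : ℚ) * (c i * t + x i) ≠ n := by
        intro n hn
        obtain ⟨k, hk⟩ := hDa i hi
        -- m' (k / D) = n, hence D ∣ m' k, D ∣ k
        have hDq : (D : ℚ) ≠ 0 := by exact_mod_cast hD.ne'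
        have h13 : (m' : ℤ) * k = n * D := by
          have : (m' : ℚ) * k = n * D := by
            rw [← hk, ← hn]
            ring
          exact_mod_cast this
        have h14 : (D : ℤ) ∣ k := by
          have : IsCoprime (D : ℤ) (m' : ℤ) := by
            rw [Nat.isCoprime_iff_coprime]
            exact hmD.symm
          exact this.dvd_of_dvd_mul_left ⟨n, by rw [h13]; ring⟩
        obtain ⟨k', hk'⟩ := h14
        apply hni i hi k'
        have : (D : ℚ) * (c i * t + x i) = D * k' := by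
          rw [hk, hk']
          push_cast
          rfl
        exact mul_left_cancel₀ hDq this
      have h15 := saw_neg h12
      have h16 : (((p i).natAbs : ℕ) : ℚ) * (m' * (v + x i / p i)) = -(m' * (c i * t + x i)) := by
        rw [h9, h11]
        ring
      rw [h16, h15]
      ring
  rw [Finset.sum_congr rfl key, Finset.sum_comm]
  refine Finset.sum_eq_zero fun a _ => ?_
  rw [← Finset.mul_sum, hA, mul_zero]

end Pool.Agent.Q136.RH
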