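import Pool.Agent.Q136.RH.Few
import Pool.Agent.Q136.RH.Ident

/-!
# Rohrlich's identity and the products of gamma values: the count
-/

set_option autoImplicit false

open Filter Topology NumberField MvPolynomial

namespace Pool.Agent.Q136.RH

open Pool.Agent.Q136.LR

/-- the logarithms of different primes are independent -/
theorem log_primes {B : ℕ} (p : Fin B → ℕ) (hp : ∀ b, (p b).Prime) (hinj : Function.Injective p) (n : Fin B → ℤ)
    (h : ∑ b, (n b : ℝ) * Real.log (p b) = 0) : n = 0 := by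
  have h1 : ∑ b, (((n b).toNat : ℕ) : ℝ) * Real.log (p b) = ∑ b, (((-n b).toNat : ℕ) : ℝ) * Real.log (p b) := by
    rw [← sub_eq_zero, ← Finset.sum_sub_distrib, ← h]
    refine Finset.sum_congr rfl fun b _ => ?_
    rw [← sub_mul]
    congr 1
    have h2 : (((n b).toNat : ℕ) : ℤ) - (((-n b).toNat : ℕ) : ℤ) = n b := by omega
    exact_mod_cast congrArg (Int.cast : ℤ → ℝ) h2
  have hpos : ∀ e : Fin B → ℕ, 0 < ∏ b, p b ^ e b := fun e => Finset.prod_pos fun b _ => pow_pos (hp b).pos _
  have hlog : ∀ e : Fin B → ℕ, ∑ b, ((e b : ℕ) : ℝ) * Real.log (p b) = Real.log ((∏ b, p b ^ e b : ℕ) : ℝ) := by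
    intro e
    push_cast
    rw [Real.log_prod fun b _ => pow_ne_zero _ (Nat.cast_ne_zero.2 (hp b).ne_zero)]
    exact Finset.sum_congr rfl fun b _ => (Real.log_pow _ _).symm
  rw [hlog, hlog] at h1
  have h2 := Real.log_injOn_pos (Set.mem_Ioi.2 (Nat.cast_pos.2 (hpos _))) (Set.mem_Ioi.2 (Nat.cast_pos.2 (hpos _))) h1
  have h3 : ∏ b, p b ^ (n b).toNat = ∏ b, p b ^ (-n b).toNat := by exact_mod_cast h2
  have hfac : ∀ (e : Fin B → ℕ) (b : Fin B), (∏ b, p b ^ e b).factorization (p b) = e b := by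
    intro e b
    rw [Nat.factorization_prod fun b _ => pow_ne_zero _ (hp b).ne_zero, Finsupp.finsetSum_apply,
      Finset.sum_eq_single b]
    · rw [Nat.factorization_pow, Finsupp.smul_apply, (hp b).factorization_self, smul_eq_mul, mul_one]
    · intro b' _ hb'
      rw [Nat.factorization_pow, Finsupp.smul_apply, (hp b').factorization, Finsupp.single_apply,
        if_neg fun h => hb' (hinj h), smul_zero]
    · intro h
      exact absurd (Finset.mem_univ _) h
  funext b
  have h4 := hfac (fun b => (n b).toNat) b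
  rw [h3, hfac (fun b => (-n b).toNat) b] at h4
  simp only [Pi.zero_apply]
  omega

/-- few members of a family with an integral argument -/
theorem few_int (n r : ℕ) (c : Fin r → ℚ) (hc : ∀ i, c i ≠ 0) (x : Fin r → ℚ) (j : Fin r → Fin n) (a b : ℝ) :
    ∃ C : ℝ, 0 ≤ C ∧ ∀ X : Finset ℚ, (∀ q ∈ X, a ≤ (q : ℝ) ∧ (q : ℝ) ≤ b) →
      ∀ E : Finset (Fin n → ℚ), (∀ t ∈ E, (∀ k, t k ∈ X) ∧ ∃ i, ∃ z : ℤ, c i * t (j i) + x i = z) →
      (E.card : ℝ) ≤ C * (X.card : ℝ) ^ (n - 1) := by
  classical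
  have hK : ∀ i, ∃ K : ℕ, ∀ X : Finset ℚ, (∀ q ∈ X, a ≤ (q : ℝ) ∧ (q : ℝ) ≤ b) →
      (X.filter fun q => ∃ z : ℤ, c i * q + x i = z).card ≤ K := by
    intro i
    obtain ⟨m, hm⟩ := exists_nat_gt (|(c i : ℝ)| * max |a| |b| + |(x i : ℝ)|)
    refine ⟨(Finset.Icc (-(m : ℤ)) m).card, fun X hX => ?_⟩
    refine Finset.card_le_card_of_injOn (fun q => ⌊c i * q + x i⌋) ?_ ?_
    · intro q hq
      rw [Finset.mem_coe, Finset.mem_filter] at hq
      obtain ⟨hq, z, hz⟩ := hq
      have h1 : |(z : ℝ)| < m := by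
        have h2 : (z : ℝ) = c i * q + x i := by exact_mod_cast hz.symm
        rw [h2]
        have h3 : |(q : ℝ)| ≤ max |a| |b| := by
          rw [abs_le]
          have h4 := hX q hq
          constructor
          · have := neg_abs_le a
            have h5 := le_max_left |a| |b|
            linarith [h4.1]
          · have := le_abs_self b
            have h5 := le_max_right |a| |b|
            linarith [h4.2]
        calc |(c i : ℝ) * q + x i| ≤ |(c i : ℝ) * q| + |(x i : ℝ)| := abs_add_le _ _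
          _ = |(c i : ℝ)| * |(q : ℝ)| + |(x i : ℝ)| := by rw [abs_mul]
          _ ≤ |(c i : ℝ)| * max |a| |b| + |(x i : ℝ)| := by
            have := mul_le_mul_of_nonneg_left h3 (abs_nonneg (c i : ℝ))
            linarith
          _ < m := hm
      rw [Finset.mem_coe, Finset.mem_Icc]
      beta_reduce
      rw [hz, Int.floor_intCast]
      have h2 : |z| < (m : ℤ) := by exact_mod_cast h1
      rw [abs_lt] at h2
      exact ⟨h2.1.le, h2.2.le⟩
    · intro q hq q' hq' h
      rw [Finset.mem_coe, Finset.mem_filter] at hq hq'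
      obtain ⟨-, z, hz⟩ := hq
      obtain ⟨-, z', hz'⟩ := hq'
      simp only [hz, hz', Int.floor_intCast] at h
      rw [h] at hz
      have h1 : c i * q = c i * q' := by linarith
      exact mul_left_cancel₀ (hc i) h1
  choose K hK using hK
  refine ⟨∑ i, (K i : ℝ), Finset.sum_nonneg fun i _ => Nat.cast_nonneg _, fun X hX E hE => ?_⟩
  have h1 : E ⊆ Finset.univ.biUnion fun i : Fin r => Fintype.piFinset
      (Function.update (fun _ : Fin n => X) (j i) (X.filter fun q => ∃ z : ℤ, c i * q + x i = z)) := by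
    intro t ht
    obtain ⟨h2, i, z, hz⟩ := hE t ht
    rw [Finset.mem_biUnion]
    refine ⟨i, Finset.mem_univ _, ?_⟩
    rw [Fintype.mem_piFinset]
    intro k
    by_cases hk : k = j i
    · subst hk
      rw [Function.update_self, Finset.mem_filter]
      exact ⟨h2 _, z, hz⟩
    · rw [Function.update_of_ne hk]
      exact h2 k
  have h2 : E.card ≤ ∑ i, K i * X.card ^ (n - 1) := by
    refine (Finset.card_le_card h1).trans (Finset.card_biUnion_le.trans (Finset.sum_le_sum fun i _ => ?_))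
    rw [Fintype.card_piFinset, Fintype.prod_eq_mul_prod_compl (j i), Function.update_self]
    refine Nat.mul_le_mul (hK i X hX) (le_of_eq ?_)
    rw [Finset.prod_congr rfl (g := fun _ => X.card) fun k hk => ?_]
    · rw [Finset.prod_const, Finset.card_compl, Finset.card_singleton, Fintype.card_fin]
    · rw [Finset.mem_compl, Finset.mem_singleton] at hk
      rw [Function.update_of_ne hk]
  rw [Finset.sum_mul]
  exact_mod_cast h2

theorem main (n r : ℕ) (c : Fin r → ℚ) (hc : ∀ i, c i ≠ 0) (x : Fin r → ℚ) (j : Fin r → Fin n) (a b : ℝ)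
    (hpole : ∀ i (s : ℝ), a ≤ s → s ≤ b → ∀ k : ℕ, (c i : ℝ) * s + x i ≠ -k)
    (N B d : ℕ) (hN : 0 < N) (A ε : ℝ) (hε : 0 < ε) :
    ∃ C T₀ : ℝ, ∀ T : ℝ, T₀ ≤ T → ∀ X : Finset ℚ,
      (∀ q ∈ X, a ≤ (q : ℝ) ∧ (q : ℝ) ≤ b ∧ (q.den : ℝ) ≤ T) →
      ∀ E : Finset (Fin n → ℚ), (∀ t ∈ E, (∀ k, t k ∈ X) ∧
        ¬ (∀ D : ℕ, 0 < D → (∀ i, ∃ k : ℤ, D * (c i * t (j i) + x i) = k) → ∀ m : ℕ, m.Coprime D →
          ∑ i, Int.fract (m * (c i * t (j i) + x i)) = r / 2) ∧
        ∃ (α : ℂ) (P : MvPolynomial (Option (Fin n × Option (Fin B))) ℤ),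
          ((∏ i, Real.Gamma ((c i * t (j i) + x i : ℚ) : ℝ) : ℝ) : ℂ) = α * ((Real.pi ^ ((r : ℝ) / 2) : ℝ) : ℂ) ∧
          P ≠ 0 ∧ (∀ v, P.degreeOf v ≤ d) ∧ (∀ s, |((P.coeff s : ℤ) : ℝ)| ≤ T ^ A) ∧
          aeval (fun o : Option (Fin n × Option (Fin B)) => o.elim α fun v => v.2.elim
            (Complex.exp (2 * Real.pi * Complex.I * (t v.1 / N)))
            fun b => (((Nat.nth Nat.Prime b : ℝ) ^ ((t v.1 : ℝ) / N) : ℝ) : ℂ)) P = 0) →
      (E.card : ℝ) ≤ C * T ^ ε * (X.card : ℝ) ^ (n - 1) := by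
  classical
  by_cases hA : ∀ (k : Fin n) (y : ℂ), ∑ i with j i = k, sq (c i) (x i) y = 0
  · obtain ⟨C, hC, H⟩ := few_int n r c hc x j a b
    refine ⟨C, 1, fun T hT X hX E hE => ?_⟩
    have h1 := H X (fun q hq => ⟨(hX q hq).1, (hX q hq).2.1⟩) E (by
      intro t ht
      obtain ⟨h1, h2, -⟩ := hE t ht
      refine ⟨h1, ?_⟩
      by_contra h3
      push Not at h3
      apply h2
      intro D hD hDa m hm
      have h4 : ∑ i, saw (m * (c i * t (j i) + x i)) = 0 := by
        rw [← Finset.sum_fiberwise Finset.univ j]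
        refine Finset.sum_eq_zero fun k _ => ?_
        have h5 := ident (Finset.univ.filter fun i => j i = k) c hc x (hA k) (t k) (by
          intro i hi z
          rw [Finset.mem_filter] at hi
          rw [← hi.2]
          exact h3 i z) D hD (by
          intro i hi
          rw [Finset.mem_filter] at hi
          rw [← hi.2]
          exact hDa i) m hm
        rw [← h5]
        refine Finset.sum_congr rfl fun i hi => ?_
        rw [Finset.mem_filter] at hi
        rw [hi.2]
      unfold saw at h4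
      rw [Finset.sum_sub_distrib, Finset.sum_const, Finset.card_univ, Fintype.card_fin, nsmul_eq_mul] at h4
      linarith)
    refine h1.trans ?_
    have h2 : 1 ≤ T ^ ε := Real.one_le_rpow hT hε.le
    have h3 : 0 ≤ (X.card : ℝ) ^ (n - 1) := by positivity
    nlinarith [mul_nonneg hC h3]
  · push Not at hA
    obtain ⟨k0, y0, hy⟩ := hA
    have hNC : (N : ℂ) ≠ 0 := Nat.cast_ne_zero.2 hN.ne'
    obtain ⟨C, T₀, -, -, H⟩ := few n r B c hc x j k0 y0 hy a b (by
      intro i t h1 h2 k hk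
      refine hpole i t h1 h2 k ?_
      exact_mod_cast hk) (fun b => Real.log (Nat.nth Nat.Prime b) / N) (by
      intro m k hm
      refine log_primes (fun b : Fin B => Nat.nth Nat.Prime b) (fun b => Nat.prime_nth_prime _)
        (fun b b' h => Fin.ext (Nat.nth_injective Nat.infinite_setOfPred_prime h)) m ?_
      have h1 := congrArg Complex.re hm
      have h2 : (2 * Real.pi * Complex.I * k : ℂ).re = 0 := by
        have : (2 * Real.pi * Complex.I * k : ℂ) = ((2 * Real.pi * k : ℝ) : ℂ) * Complex.I := by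
          push_cast
          ring
        rw [this, Complex.re_ofReal_mul]
        simp
      have h3 : (∑ b, (m b : ℂ) * ((Real.log (Nat.nth Nat.Prime b) : ℂ) / N)) =
          (((∑ b, (m b : ℝ) * Real.log (Nat.nth Nat.Prime b)) / N : ℝ) : ℂ) := by
        push_cast
        rw [Finset.sum_div]
        exact Finset.sum_congr rfl fun b _ => by ring
      rw [h2, h3, Complex.ofReal_re] at h1
      have h4 : (N : ℝ) ≠ 0 := Nat.cast_ne_zero.2 hN.ne'
      exact (div_eq_zero_iff.1 h1).resolve_right h4) (1 / N) (by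
      have h4 : (N : ℚ) ≠ 0 := Nat.cast_ne_zero.2 hN.ne'
      exact one_div_ne_zero h4) d A ε hε ((Real.pi ^ ((r : ℝ) / 2) : ℝ) : ℂ)
      (Complex.ofReal_ne_zero.2 (Real.rpow_pos_of_pos Real.pi_pos _).ne')
    refine ⟨C, T₀, fun T hT X hX E hE => H T hT X hX E fun t ht => ?_⟩
    obtain ⟨h1, -, α, P, h2, h3, h4, h5, h6⟩ := hE t ht
    refine ⟨h1, α, P, ?_, h3, h4, ?_, ?_⟩
    · rw [← h2, Complex.ofReal_prod]
      refine Finset.prod_congr rfl fun i _ => ?_
      rw [← Complex.Gamma_ofReal]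
      congr 1
      push_cast
      rfl
    · intro s
      have := h5 s
      rw [Complex.norm_intCast]
      exact this
    · rw [← h6]
      congr 2
      funext o
      rcases o with _ | ⟨k, _ | b⟩
      · rfl
      · show Complex.exp (2 * Real.pi * Complex.I * ((1 / N : ℚ) : ℂ) * (((t k : ℚ) : ℝ) : ℂ)) =
          Complex.exp (2 * Real.pi * Complex.I * (t k / N))
        congr 1
        push_cast
        ring
      · show Complex.exp (((Real.log (Nat.nth Nat.Prime b) : ℝ) : ℂ) / N * (((t k : ℚ) : ℝ) : ℂ)) =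
          (((Nat.nth Nat.Prime b : ℝ) ^ ((t k : ℝ) / N) : ℝ) : ℂ)
        rw [Real.rpow_def_of_pos (Nat.cast_pos.2 (Nat.prime_nth_prime _).pos), Complex.ofReal_exp]
        congr 1
        push_cast
        ring

end Pool.Agent.Q136.RH
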