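import Mathlib

/-!
# Polynomials with frozen variables
-/

set_option autoImplicit false
set_option linter.unusedSectionVars false

open MvPolynomial

namespace Pool.Agent.Q136.RH

variable {σ τ : Type} [Fintype σ] [DecidableEq σ] [Fintype τ] [DecidableEq τ]

/-- the exponents of the moving variables -/
noncomputable def el (s : σ ⊕ τ →₀ ℕ) : σ →₀ ℕ := Finsupp.equivFunOnFinite.symm fun i => s (Sum.inl i)

/-- the exponents of the frozen variables -/
noncomputable def er (s : σ ⊕ τ →₀ ℕ) : τ →₀ ℕ := Finsupp.equivFunOnFinite.symm fun i => s (Sum.inr i)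

/-- the exponents together -/
noncomputable def rb (μ : σ →₀ ℕ) (φ : τ → ℕ) : σ ⊕ τ →₀ ℕ := Finsupp.equivFunOnFinite.symm (Sum.elim μ φ)

theorem el_apply (s : σ ⊕ τ →₀ ℕ) (i : σ) : el s i = s (Sum.inl i) := rfl

theorem er_apply (s : σ ⊕ τ →₀ ℕ) (i : τ) : er s i = s (Sum.inr i) := rfl

theorem el_er {s s' : σ ⊕ τ →₀ ℕ} (h1 : el s = el s') (h2 : er s = er s') : s = s' := by
  ext v
  rcases v with i | k
  · exact DFunLike.congr_fun h1 i
  · exact DFunLike.congr_fun h2 k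

theorem rb_el_er (s : σ ⊕ τ →₀ ℕ) : rb (el s) (er s) = s := by
  ext v
  rcases v with i | k <;> rfl

theorem el_rb (μ : σ →₀ ℕ) (φ : τ → ℕ) : el (rb μ φ) = μ := by
  ext i
  rfl

theorem er_rb (μ : σ →₀ ℕ) (φ : τ → ℕ) (k : τ) : er (rb μ φ) k = φ k := rfl

/-- evaluation of the frozen variables, scaling of the moving variables -/
noncomputable def froz (ν : τ → ℂ) (w : σ → ℂ) : MvPolynomial (σ ⊕ τ) ℤ →+* MvPolynomial σ ℂ :=
  eval₂Hom (C.comp (Int.castRingHom ℂ)) (Sum.elim (fun i => C (w i) * X i) (fun k => C (ν k)))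

theorem froz_monomial (ν : τ → ℂ) (w : σ → ℂ) (s : σ ⊕ τ →₀ ℕ) (a : ℤ) :
    froz ν w (monomial s a) = monomial (el s) ((a : ℂ) * (∏ i, w i ^ s (Sum.inl i)) * ∏ k, ν k ^ s (Sum.inr k)) := by
  unfold froz
  rw [coe_eval₂Hom, eval₂_monomial, Finsupp.prod_fintype _ _ (fun _ => pow_zero _), Fintype.prod_sum_type]
  simp only [Sum.elim_inl, Sum.elim_inr, mul_pow, Finset.prod_mul_distrib]
  have h1 : (∏ i, (X i : MvPolynomial σ ℂ) ^ s (Sum.inl i)) = monomial (el s) 1 := by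
    rw [monomial_eq, map_one, one_mul, Finsupp.prod_fintype _ _ (fun _ => pow_zero _)]
    rfl
  rw [h1]
  simp only [← map_pow, ← map_prod]
  rw [RingHom.comp_apply, eq_intCast]
  have h2 : ∀ z : ℂ, C z * monomial (el s) (1 : ℂ) = monomial (el s) z := fun z => by
    rw [C_mul_monomial, mul_one]
  rw [← h2 ((a : ℂ) * (∏ i, w i ^ s (Sum.inl i)) * ∏ k, ν k ^ s (Sum.inr k))]
  simp only [map_mul]
  ring

theorem froz_eval (ν : τ → ℂ) (w : σ → ℂ) (g : σ → ℂ) (Q : MvPolynomial (σ ⊕ τ) ℤ) :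
    aeval g (froz ν w Q) = aeval (Sum.elim (fun i => w i * g i) ν) Q := by
  have h : ((aeval g : MvPolynomial σ ℂ →ₐ[ℂ] ℂ) : MvPolynomial σ ℂ →+* ℂ).comp (froz ν w) =
      ((aeval (Sum.elim (fun i => w i * g i) ν) : MvPolynomial (σ ⊕ τ) ℤ →ₐ[ℤ] ℂ) : MvPolynomial (σ ⊕ τ) ℤ →+* ℂ) := by
    refine MvPolynomial.ringHom_ext ?_ ?_
    · intro a
      simp [froz]
    · rintro (i | k)
      · simp [froz]
      · simp [froz]
  exact RingHom.congr_fun h Q

theorem coeff_froz (ν : τ → ℂ) (w : σ → ℂ) (Q : MvPolynomial (σ ⊕ τ) ℤ) (μ : σ →₀ ℕ) :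
    coeff μ (froz ν w Q) = (∏ i, w i ^ μ i) * ∑ s ∈ Q.support with el s = μ, ((coeff s Q : ℤ) : ℂ) * ∏ k, ν k ^ er s k := by
  conv_lhs => rw [← support_sum_monomial_coeff Q]
  rw [map_sum, coeff_sum, Finset.sum_filter, Finset.mul_sum]
  refine Finset.sum_congr rfl fun s _ => ?_
  rw [froz_monomial, coeff_monomial]
  by_cases h : el s = μ
  · rw [if_pos h, if_pos h, ← h]
    simp only [el_apply, er_apply]
    ring
  · rw [if_neg h, if_neg h, mul_zero]

/-- the coefficient as a combination of monomials in the frozen values -/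
theorem coeff_box (ν : τ → ℂ) (w : σ → ℂ) (Q : MvPolynomial (σ ⊕ τ) ℤ) (μ : σ →₀ ℕ) (d : ℕ)
    (hd : ∀ s, coeff s Q ≠ 0 → ∀ v, s v ≤ d) :
    coeff μ (froz ν w Q) = (∏ i, w i ^ μ i) *
      ∑ φ : τ → Fin (d + 1), ((coeff (rb μ fun k => φ k) Q : ℤ) : ℂ) * ∏ k, ν k ^ (φ k : ℕ) := by
  rw [coeff_froz]
  congr 1
  refine Finset.sum_bij_ne_zero (fun s _ _ => fun k => Fin.ofNat (d + 1) (er s k)) ?_ ?_ ?_ ?_
  · intro s _ _
    exact Finset.mem_univ _
  · intro s hs _ s' hs' _ h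
    rw [Finset.mem_filter, mem_support_iff] at hs hs'
    refine el_er (hs.2.trans hs'.2.symm) ?_
    ext k
    have h1 := congrArg Fin.val (congrFun h k)
    simp only [Fin.ofNat] at h1
    have e1 : er s k < d + 1 := Nat.lt_succ_of_le (hd s hs.1 (Sum.inr k))
    have e2 : er s' k < d + 1 := Nat.lt_succ_of_le (hd s' hs'.1 (Sum.inr k))
    rw [Nat.mod_eq_of_lt e1, Nat.mod_eq_of_lt e2] at h1
    exact h1
  · intro φ _ hφ
    have h1 : coeff (rb μ fun k => (φ k : ℕ)) Q ≠ 0 := by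
      intro h0
      apply hφ
      rw [h0]
      simp
    refine ⟨rb μ fun k => (φ k : ℕ), ?_, ?_, ?_⟩
    · rw [Finset.mem_filter, mem_support_iff]
      exact ⟨h1, el_rb _ _⟩
    · simp only [er_rb]
      exact hφ
    · funext k
      apply Fin.ext
      rw [er_rb]
      simp only [Fin.ofNat]
      exact Nat.mod_eq_of_lt (φ k).2
  · intro s hs _
    rw [Finset.mem_filter, mem_support_iff] at hs
    have h1 : ∀ k, ((Fin.ofNat (d + 1) (er s k) : Fin (d + 1)) : ℕ) = er s k := fun k =>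
      Nat.mod_eq_of_lt (show er s k < d + 1 from Nat.lt_succ_of_le (hd s hs.1 (Sum.inr k)))
    simp only [h1]
    rw [← hs.2, rb_el_er]

/-- the polynomial in the frozen variables of a coefficient -/
noncomputable def cq (Q : MvPolynomial (σ ⊕ τ) ℤ) (μ : σ →₀ ℕ) : MvPolynomial τ ℤ :=
  ∑ s ∈ Q.support with el s = μ, monomial (er s) (coeff s Q)

theorem cq_coeff (Q : MvPolynomial (σ ⊕ τ) ℤ) (μ : σ →₀ ℕ) (φ : τ →₀ ℕ) :
    coeff φ (cq Q μ) = coeff (rb μ φ) Q := by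
  unfold cq
  rw [coeff_sum]
  simp only [coeff_monomial]
  by_cases h : coeff (rb μ φ) Q = 0
  · rw [h]
    refine Finset.sum_eq_zero fun s hs => ?_
    rw [Finset.mem_filter] at hs
    split_ifs with h1
    · rw [← h, ← hs.2, ← h1, rb_el_er]
    · rfl
  · rw [Finset.sum_eq_single (rb μ φ)]
    · rw [if_pos]
      ext k
      rfl
    · intro s hs hne
      rw [Finset.mem_filter] at hs
      refine if_neg fun h1 => hne ?_
      rw [← hs.2, ← h1, rb_el_er]
    · intro h1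
      exfalso
      apply h1
      rw [Finset.mem_filter, mem_support_iff]
      exact ⟨h, el_rb _ _⟩

theorem cq_eval (ν : τ → ℂ) (w : σ → ℂ) (Q : MvPolynomial (σ ⊕ τ) ℤ) (μ : σ →₀ ℕ) :
    coeff μ (froz ν w Q) = (∏ i, w i ^ μ i) * aeval ν (cq Q μ) := by
  rw [coeff_froz]
  congr 1
  unfold cq
  rw [map_sum]
  refine Finset.sum_congr rfl fun s _ => ?_
  rw [aeval_monomial, Finsupp.prod_fintype _ _ (fun _ => pow_zero _)]
  simp

end Pool.Agent.Q136.RH
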