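import Pool.Agent.Q136.RH.Seq
import Pool.Agent.Q136.LR.Gam

/-!
# Monomials in `Γ(c_i n + x_i)` and exponentials along the integers
-/

set_option autoImplicit false
set_option linter.unusedSectionVars false

open Filter Topology Polynomial

namespace Pool.Agent.Q136.RH

open Pool.Agent.Q23.DM Pool.Agent.Q136.LR

/-- numerators of the multipliers -/
noncomputable def nb {r q u : ℕ} (c : Fin r → ℤ) (x : Fin r → ℂ) (M : Fin q → Fin r → ℕ) (lam : Fin u → ℂ) :
    Fin q ⊕ Fin u → ℂ[X] :=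
  Sum.elim (fun l => ∏ i, (if 0 < c i then QQ (c i) (x i) else 1) ^ M l i) (fun j => C (lam j))

/-- denominators of the multipliers -/
noncomputable def nd {r q u : ℕ} (c : Fin r → ℤ) (x : Fin r → ℂ) (M : Fin q → Fin r → ℕ) :
    Fin q ⊕ Fin u → ℂ[X] :=
  Sum.elim (fun l => ∏ i, (if 0 < c i then 1 else QQ (c i) (x i)) ^ M l i) (fun _ => 1)

section

variable {r q u : ℕ} (c : Fin r → ℤ) (hc : ∀ i, c i ≠ 0) (x : Fin r → ℂ) (M : Fin q → Fin r → ℕ) (lam : Fin u → ℂ)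

include hc

theorem fac1 (i : Fin r) : (if 0 < c i then QQ (c i) (x i) else 1 : ℂ[X]) ≠ 0 := by
  split_ifs
  · exact QQ_ne (hc i) _
  · exact one_ne_zero

theorem fac2 (i : Fin r) : (if 0 < c i then 1 else QQ (c i) (x i) : ℂ[X]) ≠ 0 := by
  split_ifs
  · exact one_ne_zero
  · exact QQ_ne (hc i) _

theorem nb_ne (hl : ∀ l, lam l ≠ 0) (j : Fin q ⊕ Fin u) : nb c x M lam j ≠ 0 := by
  rcases j with k | l
  · show (∏ i, (if 0 < c i then QQ (c i) (x i) else 1) ^ M k i : ℂ[X]) ≠ 0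
    exact Finset.prod_ne_zero_iff.2 fun i _ => pow_ne_zero _ (fac1 c hc x i)
  · exact C_ne_zero.2 (hl l)

theorem nd_ne (j : Fin q ⊕ Fin u) : nd (u := u) c x M j ≠ 0 := by
  rcases j with k | l
  · show (∏ i, (if 0 < c i then 1 else QQ (c i) (x i)) ^ M k i : ℂ[X]) ≠ 0
    exact Finset.prod_ne_zero_iff.2 fun i _ => pow_ne_zero _ (fac2 c hc x i)
  · exact one_ne_zero

theorem nr_one (y : ℂ) : nr y (1 : ℂ[X]) = 0 := by
  have := nr_C y 1
  rwa [map_one] at this

open Classical in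
theorem nr_nb (l : Fin q) (y : ℂ) : nr y (nb c x M lam (Sum.inl l)) =
    ∑ i, M l i * (if 0 < c i then (if Cos (c i) (x i) y then 1 else 0) else 0) := by
  show nr y (∏ i, (if 0 < c i then QQ (c i) (x i) else 1) ^ M l i) = _
  rw [nr_prod _ _ _ fun i => pow_ne_zero _ (fac1 c hc x i)]
  refine Finset.sum_congr rfl fun i _ => ?_
  rw [nr_pow _ (fac1 c hc x i)]
  congr 1
  by_cases h : 0 < c i
  · rw [if_pos h, if_pos h, nr_QQ (hc i)]
  · rw [if_neg h, if_neg h, nr_one c hc]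

open Classical in
theorem nr_nd (l : Fin q) (y : ℂ) : nr y (nd (u := u) c x M (Sum.inl l)) =
    ∑ i, M l i * (if 0 < c i then 0 else (if Cos (c i) (x i) y then 1 else 0)) := by
  show nr y (∏ i, (if 0 < c i then 1 else QQ (c i) (x i)) ^ M l i) = _
  rw [nr_prod _ _ _ fun i => pow_ne_zero _ (fac2 c hc x i)]
  refine Finset.sum_congr rfl fun i _ => ?_
  rw [nr_pow _ (fac2 c hc x i)]
  congr 1
  by_cases h : 0 < c i
  · rw [if_pos h, if_pos h, nr_one c hc]
  · rw [if_neg h, if_neg h, nr_QQ (hc i)]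

theorem pr_sum (b : Fin q ⊕ Fin u → ℂ[X]) (e : (Fin q ⊕ Fin u) →₀ ℕ) :
    pr b e = (∏ l, b (Sum.inl l) ^ e (Sum.inl l)) * ∏ j, b (Sum.inr j) ^ e (Sum.inr j) := by
  unfold pr
  rw [Finsupp.prod_fintype _ _ (fun _ => pow_zero _), Fintype.prod_sum_type]

theorem nr_pb (hl : ∀ l, lam l ≠ 0) (e : (Fin q ⊕ Fin u) →₀ ℕ) (y : ℂ) :
    nr y (pr (nb c x M lam) e) = ∑ l, e (Sum.inl l) * nr y (nb c x M lam (Sum.inl l)) := by
  have h0 : ∀ j : Fin u, nb c x M lam (Sum.inr j) ≠ 0 := fun j => nb_ne c hc x M lam hl _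
  have h0' : ∀ j : Fin q, nb c x M lam (Sum.inl j) ≠ 0 := fun j => nb_ne c hc x M lam hl _
  rw [pr_sum c hc, nr_mul _ (Finset.prod_ne_zero_iff.2 fun i _ => pow_ne_zero _ (h0' i))
    (Finset.prod_ne_zero_iff.2 fun i _ => pow_ne_zero _ (h0 i)), nr_prod _ _ _ fun i => pow_ne_zero _ (h0' i),
    nr_prod _ _ _ fun i => pow_ne_zero _ (h0 i)]
  have h1 : ∀ j : Fin u, nr y (nb c x M lam (Sum.inr j) ^ e (Sum.inr j)) = 0 := by
    intro j
    rw [nr_pow _ (h0 j)]
    have : nr y (nb c x M lam (Sum.inr j)) = 0 := nr_C _ _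
    rw [this, mul_zero]
  simp only [h1, Finset.sum_const_zero, add_zero]
  exact Finset.sum_congr rfl fun i _ => nr_pow _ (h0' i) _

theorem nr_pd (e : (Fin q ⊕ Fin u) →₀ ℕ) (y : ℂ) :
    nr y (pr (nd (u := u) c x M) e) = ∑ l, e (Sum.inl l) * nr y (nd (u := u) c x M (Sum.inl l)) := by
  have h0 : ∀ j : Fin u, nd (u := u) c x M (Sum.inr j) ≠ 0 := fun j => nd_ne c hc x M _
  have h0' : ∀ j : Fin q, nd (u := u) c x M (Sum.inl j) ≠ 0 := fun j => nd_ne c hc x M _
  rw [pr_sum c hc, nr_mul _ (Finset.prod_ne_zero_iff.2 fun i _ => pow_ne_zero _ (h0' i))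
    (Finset.prod_ne_zero_iff.2 fun i _ => pow_ne_zero _ (h0 i)), nr_prod _ _ _ fun i => pow_ne_zero _ (h0' i),
    nr_prod _ _ _ fun i => pow_ne_zero _ (h0 i)]
  have h1 : ∀ j : Fin u, nr y (nd (u := u) c x M (Sum.inr j) ^ e (Sum.inr j)) = 0 := by
    intro j
    rw [nr_pow _ (h0 j)]
    have : nr y (nd (u := u) c x M (Sum.inr j)) = 0 := nr_one c hc y
    rw [this, mul_zero]
  simp only [h1, Finset.sum_const_zero, add_zero]
  exact Finset.sum_congr rfl fun i _ => nr_pow _ (h0' i) _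

end

open Classical in
/-- the signed indicator function -/
noncomputable def sg (c : ℤ) (x y : ℂ) : ℂ := if Cos c x y then (if 0 < c then 1 else -1) else 0

open Classical in
/-- the criterion for the multipliers -/
theorem hM_mon {r q u : ℕ} (c : Fin r → ℤ) (hc : ∀ i, c i ≠ 0) (x : Fin r → ℂ) (M : Fin q → Fin r → ℕ) (lam : Fin u → ℂ)
    (hl : ∀ l, lam l ≠ 0) (hl' : ∀ e e' : Fin u → ℕ, ∏ l, lam l ^ e l = ∏ l, lam l ^ e' l → e = e')
    (hind : ∀ m : Fin q → ℂ, (∀ y : ℂ, ∑ l, m l * ∑ i, (M l i : ℂ) * sg (c i) (x i) y = 0) → m = 0)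
    (e e' : (Fin q ⊕ Fin u) →₀ ℕ) (A B : ℂ[X]) (hA : A ≠ 0) (hB : B ≠ 0)
    (h : pr (nb c x M lam) e * pr (nd c x M) e' * (A.comp (X + 1) * B) =
      pr (nb c x M lam) e' * pr (nd c x M) e * (A * B.comp (X + 1))) : e = e' := by
  have hne : ∀ e, pr (nb c x M lam) e ≠ 0 := fun e => pr_poly_ne (nb_ne c hc x M lam hl) e
  have hne' : ∀ e, pr (nd (u := u) c x M) e ≠ 0 := fun e => pr_poly_ne (nd_ne c hc x M) e
  have h1 : ∀ l, e (Sum.inl l) = e' (Sum.inl l) := by
    have h3 := hind (fun l => ((e (Sum.inl l) : ℂ) - (e' (Sum.inl l) : ℂ))) (by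
      intro y
      have h2 := congrArg (nr y) h
      rw [nr_mul _ (mul_ne_zero (hne e) (hne' e')) (mul_ne_zero (shift_ne hA) hB), nr_mul _ (hne e) (hne' e'),
        nr_mul _ (mul_ne_zero (hne e') (hne' e)) (mul_ne_zero hA (shift_ne hB)), nr_mul _ (hne e') (hne' e),
        nr_mul _ (shift_ne hA) hB, nr_mul _ hA (shift_ne hB), nr_shift, nr_shift] at h2
      have h4 : nr y (pr (nb c x M lam) e) + nr y (pr (nd (u := u) c x M) e') =
          nr y (pr (nb c x M lam) e') + nr y (pr (nd (u := u) c x M) e) := by omega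
      rw [nr_pb c hc x M lam hl, nr_pb c hc x M lam hl, nr_pd c hc x M, nr_pd c hc x M] at h4
      have h5 := congrArg (Nat.cast : ℕ → ℂ) h4
      simp only [nr_nb c hc, nr_nd c hc] at h5
      push_cast at h5
      rw [← sub_eq_zero, ← Finset.sum_add_distrib, ← Finset.sum_add_distrib, ← Finset.sum_sub_distrib] at h5
      refine Eq.trans (Finset.sum_congr rfl fun l _ => ?_) h5
      have h6 : ∑ i, (M l i : ℂ) * sg (c i) (x i) y =
          (∑ i, (M l i : ℂ) * (if 0 < c i then (if Cos (c i) (x i) y then 1 else 0) else 0)) -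
          ∑ i, (M l i : ℂ) * (if 0 < c i then 0 else (if Cos (c i) (x i) y then 1 else 0)) := by
        rw [← Finset.sum_sub_distrib]
        refine Finset.sum_congr rfl fun i _ => ?_
        unfold sg
        split_ifs <;> ring
      rw [h6]
      ring)
    intro l
    have h4 := congrFun h3 l
    simp only [Pi.zero_apply] at h4
    exact_mod_cast sub_eq_zero.1 h4
  -- cancel the gamma parts
  have hdeg : ∀ R : ℂ[X], (R.comp (X + 1)).leadingCoeff = R.leadingCoeff := by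
    intro R
    have : (X + 1 : ℂ[X]).natDegree = 1 := natDegree_X_add_C 1
    rw [leadingCoeff_comp (by rw [this]; exact one_ne_zero)]
    have h2 : (X + 1 : ℂ[X]).leadingCoeff = 1 := leadingCoeff_X_add_C 1
    rw [h2, one_pow, mul_one]
  set G := ∏ l, (nb c x M lam (Sum.inl l)) ^ e (Sum.inl l) with hG
  set G' := ∏ l, (nd (u := u) c x M (Sum.inl l)) ^ e (Sum.inl l) with hG'
  have hbe : ∀ e₁ : (Fin q ⊕ Fin u) →₀ ℕ, (∀ l, e₁ (Sum.inl l) = e (Sum.inl l)) →
      pr (nb c x M lam) e₁ = G * C (∏ l, lam l ^ e₁ (Sum.inr l)) := by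
    intro e₁ h₁
    rw [pr_sum c hc, hG, map_prod]
    simp only [h₁, map_pow]
    rfl
  have hde : ∀ e₁ : (Fin q ⊕ Fin u) →₀ ℕ, (∀ l, e₁ (Sum.inl l) = e (Sum.inl l)) →
      pr (nd (u := u) c x M) e₁ = G' := by
    intro e₁ h₁
    rw [pr_sum c hc, hG']
    have : ∀ l : Fin u, nd (u := u) c x M (Sum.inr l) = 1 := fun _ => rfl
    simp only [this, one_pow, Finset.prod_const_one, mul_one, h₁]
  have hGne : G ≠ 0 := fun h0 => hne e (by rw [hbe e fun _ => rfl, h0, zero_mul])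
  have hG'ne : G' ≠ 0 := fun h0 => hne' e (by rw [hde e fun _ => rfl, h0])
  rw [hbe e fun _ => rfl, hbe e' fun l => (h1 l).symm, hde e fun _ => rfl, hde e' fun l => (h1 l).symm] at h
  have h2 : C (∏ l, lam l ^ e (Sum.inr l)) * (A.comp (X + 1) * B) =
      C (∏ l, lam l ^ e' (Sum.inr l)) * (A * B.comp (X + 1)) := by
    apply mul_left_cancel₀ (mul_ne_zero hGne hG'ne)
    linear_combination h
  have h3 := congrArg leadingCoeff h2
  rw [leadingCoeff_mul, leadingCoeff_mul, leadingCoeff_mul, leadingCoeff_mul, hdeg, hdeg, leadingCoeff_C,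
    leadingCoeff_C] at h3
  have h4 : (∏ l, lam l ^ e (Sum.inr l)) = ∏ l, lam l ^ e' (Sum.inr l) :=
    mul_right_cancel₀ (mul_ne_zero (leadingCoeff_ne_zero.2 hA) (leadingCoeff_ne_zero.2 hB)) h3
  have h5 := hl' (fun l => e (Sum.inr l)) (fun l => e' (Sum.inr l)) h4
  ext j
  rcases j with j | l
  · exact h1 j
  · exact congrFun h5 l

/-- the functions -/
noncomputable def gm {r q u : ℕ} (c : Fin r → ℂ) (x : Fin r → ℂ) (M : Fin q → Fin r → ℕ) (l : Fin u → ℂ) :
    Fin q ⊕ Fin u → ℂ → ℂ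
  | Sum.inl k, z => ∏ i, Complex.Gamma (c i * z + x i) ^ M k i
  | Sum.inr j, z => Complex.exp (l j * z)

/-- independence along the integers -/
theorem seqMon {r q u : ℕ} (c : Fin r → ℤ) (hc : ∀ i, c i ≠ 0) (x : Fin r → ℂ) (hx : ∀ i, (x i).im ≠ 0)
    (M : Fin q → Fin r → ℕ) (l : Fin u → ℂ)
    (hl : ∀ e e' : Fin u → ℕ, Complex.exp (∑ j, e j * l j) = Complex.exp (∑ j, e' j * l j) → e = e')
    (hind : ∀ m : Fin q → ℂ, (∀ y : ℂ, ∑ l, m l * ∑ i, (M l i : ℂ) * sg (c i) (x i) y = 0) → m = 0)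
    (P : MvPolynomial (Option (Fin q ⊕ Fin u)) ℂ)
    (hP : ∀ n : ℕ, MvPolynomial.eval (fun o : Option (Fin q ⊕ Fin u) =>
      o.elim (n : ℂ) fun y => gm (fun i => (c i : ℂ)) x M l y (n : ℂ)) P = 0) : P = 0 := by
  have him : ∀ i (t : ℕ), ((c i : ℂ) * (t : ℂ) + x i).im ≠ 0 := by
    intro i t
    have : ((c i : ℂ) * (t : ℂ) + x i).im = (x i).im := by simp
    rw [this]
    exact hx i
  refine seqInd (μ := Fin q ⊕ Fin u) (fun y n => gm (fun i => (c i : ℂ)) x M l y (n : ℂ))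
    (nb c x M (fun j => Complex.exp (l j))) (nd c x M) (nb_ne c hc x M _ fun j => Complex.exp_ne_zero _)
    (nd_ne c hc x M) ?_ ?_ ?_ P (Eventually.of_forall hP)
  · rintro (k | j)
    · refine Eventually.of_forall fun t => ?_
      show (∏ i, (if 0 < c i then 1 else QQ (c i) (x i)) ^ M k i : ℂ[X]).eval (t : ℂ) *
        ∏ i, Complex.Gamma ((c i : ℂ) * ((t + 1 : ℕ) : ℂ) + x i) ^ M k i =
        (∏ i, (if 0 < c i then QQ (c i) (x i) else 1) ^ M k i : ℂ[X]).eval (t : ℂ) *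
        ∏ i, Complex.Gamma ((c i : ℂ) * (t : ℂ) + x i) ^ M k i
      rw [eval_prod, eval_prod, ← Finset.prod_mul_distrib, ← Finset.prod_mul_distrib]
      refine Finset.prod_congr rfl fun i _ => ?_
      rw [eval_pow, eval_pow, ← mul_pow, ← mul_pow]
      congr 1
      have h2 : (((t + 1 : ℕ)) : ℂ) = (t : ℂ) + 1 := by push_cast; ring
      rw [h2]
      exact gam_step (hc i) _ _ (him i t)
    · refine Eventually.of_forall fun t => ?_
      show (1 : ℂ[X]).eval (t : ℂ) * Complex.exp (l j * (((t + 1 : ℕ)) : ℂ)) =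
        (C (Complex.exp (l j))).eval (t : ℂ) * Complex.exp (l j * (t : ℂ))
      rw [eval_C, ← Complex.exp_add, eval_one, one_mul]
      congr 1
      push_cast
      ring
  · rintro (k | j)
    · exact Eventually.of_forall fun t => Finset.prod_ne_zero_iff.2 fun i _ =>
        pow_ne_zero _ (Complex.Gamma_ne_zero (np_im (him i t)))
    · exact Eventually.of_forall fun t => Complex.exp_ne_zero _
  · intro e e' A B hA hB h
    refine hM_mon c hc x M (fun j => Complex.exp (l j)) (fun j => Complex.exp_ne_zero _) (fun e e' h => hl e e' ?_)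
      hind e e' A B hA hB h
    simpa [Complex.exp_sum, Complex.exp_nat_mul] using h

end Pool.Agent.Q136.RH
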