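import Pool.Agent.Q136.LR.Crit

/-!
# Multiplicative independence of sequences over `ℂ(n)`

Germs at infinity of sequences `ℕ → ℂ`.
-/

set_option autoImplicit false

open Filter Topology Polynomial

namespace Pool.Agent.Q136.RH

open Pool.Agent.Q23.DM Pool.Agent.Q136.LR

abbrev GN := Germ (atTop : Filter ℕ) ℂ

/-- polynomials as germs at infinity -/
noncomputable def phiN : ℂ[X] →+* GN where
  toFun P := ((fun n : ℕ => P.eval (n : ℂ)) : ℕ → ℂ)
  map_one' := by
    rw [← Germ.coe_one]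
    congr 1
    funext t
    simp
  map_mul' P Q := by
    rw [← Germ.coe_mul]
    congr 1
    funext t
    simp
  map_zero' := by
    rw [← Germ.coe_zero]
    congr 1
    funext t
    simp
  map_add' P Q := by
    rw [← Germ.coe_add]
    congr 1
    funext t
    simp

theorem poly_neN {P : ℂ[X]} (hP : P ≠ 0) : ∀ᶠ n : ℕ in atTop, P.eval (n : ℂ) ≠ 0 := by
  have h := (tendsto_natCast_atTop_atTop (R := ℝ)).eventually (poly_ne hP)
  filter_upwards [h] with n hn
  simpa using hn

theorem phiN_unit {P : ℂ[X]} (hP : P ≠ 0) : IsUnit (phiN P) := by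
  refine IsUnit.of_mul_eq_one (((fun n : ℕ => (P.eval (n : ℂ))⁻¹) : ℕ → ℂ) : GN) ?_
  show (((fun t : ℕ => P.eval (t : ℂ)) : ℕ → ℂ) : GN) * (((fun t : ℕ => (P.eval (t : ℂ))⁻¹) : ℕ → ℂ) : GN) = 1
  rw [← Germ.coe_mul, ← Germ.coe_one]
  refine Germ.coe_eq.2 ?_
  filter_upwards [poly_neN hP] with t ht
  simp [ht]

/-- rational functions as germs at infinity -/
noncomputable def iotaN : KC →+* GN :=
  IsLocalization.lift (M := nonZeroDivisors ℂ[X]) (g := phiN) (fun y => phiN_unit (nonZeroDivisors.ne_zero y.2))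

noncomputable instance : Algebra KC GN := iotaN.toAlgebra

theorem iotaN_poly (P : ℂ[X]) : iotaN (algebraMap ℂ[X] KC P) = phiN P := IsLocalization.lift_eq _ _

theorem iotaN_div (P Q : ℂ[X]) (hQ : Q ≠ 0) :
    iotaN (algebraMap ℂ[X] KC P / algebraMap ℂ[X] KC Q) =
      (((fun t : ℕ => P.eval (t : ℂ) / Q.eval (t : ℂ)) : ℕ → ℂ) : GN) := by
  have hQ' : algebraMap ℂ[X] KC Q ≠ 0 := by
    rw [Ne, IsFractionRing.to_map_eq_zero_iff]
    exact hQ
  have h1 : iotaN (algebraMap ℂ[X] KC P / algebraMap ℂ[X] KC Q) * phiN Q = phiN P := by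
    rw [← iotaN_poly Q, ← map_mul, div_mul_cancel₀ _ hQ', iotaN_poly]
  have h2 : (((fun t : ℕ => P.eval (t : ℂ) / Q.eval (t : ℂ)) : ℕ → ℂ) : GN) * phiN Q = phiN P := by
    show (((fun t : ℕ => P.eval (t : ℂ) / Q.eval (t : ℂ)) : ℕ → ℂ) : GN) * (((fun t : ℕ => Q.eval (t : ℂ)) : ℕ → ℂ) : GN) =
      (((fun t : ℕ => P.eval (t : ℂ)) : ℕ → ℂ) : GN)
    rw [← Germ.coe_mul]
    refine Germ.coe_eq.2 ?_
    filter_upwards [poly_neN hQ] with t ht
    simp only [Pi.mul_apply]
    field_simp
  exact (phiN_unit hQ).mul_right_cancel (h1.trans h2.symm)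

/-- the shift on germs -/
noncomputable def ShN : GN →+* GN where
  toFun g := g.compTendsto (fun t : ℕ => t + 1) (tendsto_add_atTop_nat 1)
  map_one' := rfl
  map_zero' := rfl
  map_mul' f g := by
    induction f, g using Germ.inductionOn₂ with
    | _ f g => rfl
  map_add' f g := by
    induction f, g using Germ.inductionOn₂ with
    | _ f g => rfl

theorem ShN_coe (f : ℕ → ℂ) : ShN (f : GN) = ((fun t => f (t + 1) : ℕ → ℂ) : GN) := rfl

theorem ShN_iota (x : KC) : ShN (algebraMap KC GN x) = algebraMap KC GN (sig x) := by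
  have h : ShN.comp iotaN = iotaN.comp sig := by
    refine IsLocalization.ringHom_ext (nonZeroDivisors ℂ[X]) ?_
    ext P
    · simp only [RingHom.comp_apply]
      rw [iotaN_poly, sig_poly, iotaN_poly]
      show ShN (((fun t : ℕ => (C P).eval (t : ℂ)) : ℕ → ℂ) : GN) =
        (((fun t : ℕ => ((C P).comp (X + 1)).eval (t : ℂ)) : ℕ → ℂ) : GN)
      rw [ShN_coe]
      congr 1
      funext t
      simp
    · simp only [RingHom.comp_apply]
      rw [iotaN_poly, sig_poly, iotaN_poly]
      show ShN (((fun t : ℕ => (X : ℂ[X]).eval (t : ℂ)) : ℕ → ℂ) : GN) =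
        (((fun t : ℕ => ((X : ℂ[X]).comp (X + 1)).eval (t : ℂ)) : ℕ → ℂ) : GN)
      rw [ShN_coe]
      congr 1
      funext t
      simp
  exact RingHom.congr_fun h x

/-- polynomials in `n` and the sequences, as germs -/
theorem germN_eval {Z : Type} (u : Z → ℕ → ℂ) (P : MvPolynomial (Option Z) ℂ) :
    MvPolynomial.aeval (fun z => ((u z : ℕ → ℂ) : GN))
      (MvPolynomial.map (algebraMap ℂ[X] KC) (MvPolynomial.optionEquivRight ℂ Z P)) =
    (((fun t : ℕ => MvPolynomial.eval (fun o : Option Z => o.elim (t : ℂ) fun z => u z t) P) : ℕ → ℂ) : GN) := by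
  let Ev : MvPolynomial (Option Z) ℂ →+* (ℕ → ℂ) :=
    Pi.ringHom fun t : ℕ => MvPolynomial.eval (fun o : Option Z => o.elim (t : ℂ) fun z => u z t)
  have h : ((MvPolynomial.aeval (fun z => ((u z : ℕ → ℂ) : GN)) : MvPolynomial Z KC →ₐ[KC] GN).toRingHom.comp
      (MvPolynomial.map (algebraMap ℂ[X] KC))).comp (MvPolynomial.optionEquivRight ℂ Z).toAlgHom.toRingHom =
      (Germ.coeRingHom (atTop : Filter ℕ)).comp Ev := by
    refine MvPolynomial.ringHom_ext ?_ ?_
    · intro c
      have h1 : MvPolynomial.optionEquivRight ℂ Z (MvPolynomial.C c) = MvPolynomial.C (C c) := by simp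
      show MvPolynomial.aeval (fun z => ((u z : ℕ → ℂ) : GN)) (MvPolynomial.map (algebraMap ℂ[X] KC)
        (MvPolynomial.optionEquivRight ℂ Z (MvPolynomial.C c))) = _
      rw [h1, MvPolynomial.map_C, MvPolynomial.aeval_C]
      have h2 : algebraMap KC GN (algebraMap ℂ[X] KC (C c)) = phiN (C c) := iotaN_poly _
      rw [h2]
      show (((fun t : ℕ => (C c).eval (t : ℂ)) : ℕ → ℂ) : GN) = ((Ev (MvPolynomial.C c) : ℕ → ℂ) : GN)
      congr 1
      funext t
      show _ = MvPolynomial.eval _ (MvPolynomial.C c)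
      simp
    · rintro (_ | z)
      · have h1 : MvPolynomial.optionEquivRight ℂ Z (MvPolynomial.X none) = MvPolynomial.C X :=
          MvPolynomial.optionEquivRight_X_none ℂ Z
        show MvPolynomial.aeval (fun z => ((u z : ℕ → ℂ) : GN)) (MvPolynomial.map (algebraMap ℂ[X] KC)
          (MvPolynomial.optionEquivRight ℂ Z (MvPolynomial.X none))) = _
        rw [h1, MvPolynomial.map_C, MvPolynomial.aeval_C]
        have h2 : algebraMap KC GN (algebraMap ℂ[X] KC X) = phiN X := iotaN_poly _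
        rw [h2]
        show (((fun t : ℕ => (X : ℂ[X]).eval (t : ℂ)) : ℕ → ℂ) : GN) = ((Ev (MvPolynomial.X none) : ℕ → ℂ) : GN)
        congr 1
        funext t
        show _ = MvPolynomial.eval _ (MvPolynomial.X none)
        simp
      · have h1 : MvPolynomial.optionEquivRight ℂ Z (MvPolynomial.X (some z)) = MvPolynomial.X z :=
          MvPolynomial.optionEquivRight_X_some ℂ Z z
        show MvPolynomial.aeval (fun z => ((u z : ℕ → ℂ) : GN)) (MvPolynomial.map (algebraMap ℂ[X] KC)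
          (MvPolynomial.optionEquivRight ℂ Z (MvPolynomial.X (some z)))) = _
        rw [h1, MvPolynomial.map_X, MvPolynomial.aeval_X]
        show ((u z : ℕ → ℂ) : GN) = ((Ev (MvPolynomial.X (some z)) : ℕ → ℂ) : GN)
        congr 1
        funext t
        show _ = MvPolynomial.eval _ (MvPolynomial.X (some z))
        simp
  exact RingHom.congr_fun h P

/-- algebraic independence over the field of rational functions -/
theorem polyN_of_algInd {Z : Type} (u : Z → ℕ → ℂ)
    (h : AlgebraicIndependent KC (fun z => ((u z : ℕ → ℂ) : GN))) (P : MvPolynomial (Option Z) ℂ)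
    (hP : ∀ᶠ t : ℕ in atTop, MvPolynomial.eval (fun o : Option Z => o.elim (t : ℂ) fun z => u z t) P = 0) : P = 0 := by
  have h1 := germN_eval u P
  have h2 : (((fun t : ℕ => MvPolynomial.eval (fun o : Option Z => o.elim (t : ℂ) fun z => u z t) P) : ℕ → ℂ) : GN) = 0 := by
    rw [← Germ.coe_zero]
    exact Germ.coe_eq.2 hP
  rw [h2] at h1
  have h3 := (algebraicIndependent_iff.1 h) _ h1
  have h4 : MvPolynomial.optionEquivRight ℂ Z P = 0 := by
    apply MvPolynomial.map_injective _ alg_inj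
    rw [h3, map_zero]
  exact (map_eq_zero_iff _ (MvPolynomial.optionEquivRight ℂ Z).injective).1 h4

/-- **Independence over `ℂ(n)`** of sequences with `b'(n) v(n+1) = b(n) v(n)`. -/
theorem seqInd {μ : Type} [Fintype μ] [DecidableEq μ]
    (v : μ → ℕ → ℂ) (b b' : μ → ℂ[X]) (hb : ∀ j, b j ≠ 0) (hb' : ∀ j, b' j ≠ 0)
    (hv : ∀ j, ∀ᶠ t : ℕ in atTop, (b' j).eval (t : ℂ) * v j (t + 1) = (b j).eval (t : ℂ) * v j t)
    (hv0 : ∀ j, ∀ᶠ t : ℕ in atTop, v j t ≠ 0)
    (hM : ∀ (e e' : μ →₀ ℕ) (A B : ℂ[X]), A ≠ 0 → B ≠ 0 →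
      pr b e * pr b' e' * (A.comp (X + 1) * B) = pr b e' * pr b' e * (A * B.comp (X + 1)) → e = e')
    (P : MvPolynomial (Option μ) ℂ)
    (hP : ∀ᶠ t : ℕ in atTop, MvPolynomial.eval
      (fun o : Option μ => o.elim (t : ℂ) fun z => v z t) P = 0) :
    P = 0 := by
  classical
  refine polyN_of_algInd v ?_ P hP
  have key : AlgebraicIndependent KC (Sum.elim (fun i : Fin 0 => (0 : GN)) (fun j => ((v j : ℕ → ℂ) : GN))) := by
    refine mixInd sig ShN ShN_iota _ (fun _ => 1) (fun _ => 0) (fun _ => one_ne_zero) ?_ _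
      (fun j => algebraMap ℂ[X] KC (b j) / algebraMap ℂ[X] KC (b' j)) ?_ ?_ ?_ ?_ ?_
    · intro i
      exact i.elim0
    · intro j
      exact div_ne_zero (alg_ne (hb j)) (alg_ne (hb' j))
    · intro j
      have h1 : algebraMap KC GN (algebraMap ℂ[X] KC (b j) / algebraMap ℂ[X] KC (b' j)) =
        (((fun t : ℕ => (b j).eval (t : ℂ) / (b' j).eval (t : ℂ)) : ℕ → ℂ) : GN) := iotaN_div _ _ (hb' j)
      rw [h1, ShN_coe, ← Germ.coe_mul]
      refine Germ.coe_eq.2 ?_
      filter_upwards [hv j, poly_neN (hb' j)] with t h1 h2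
      simp only [Pi.mul_apply]
      field_simp
      linear_combination h1
    · intro j
      refine IsUnit.of_mul_eq_one (((fun t : ℕ => (v j t)⁻¹) : ℕ → ℂ) : GN) ?_
      rw [← Germ.coe_mul, ← Germ.coe_one]
      refine Germ.coe_eq.2 ?_
      filter_upwards [hv0 j] with t ht
      simp [ht]
    · intro i0
      exact i0.elim0
    · intro e e' c hc hcc'
      obtain ⟨A, B, hB, rfl⟩ := IsFractionRing.div_surjective (A := ℂ[X]) c
      have hB0 : B ≠ 0 := nonZeroDivisors.ne_zero hB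
      have hA0 : A ≠ 0 := by
        rintro rfl
        apply hc
        simp
      have hsh : ∀ {R : ℂ[X]}, R ≠ 0 → R.comp (X + 1) ≠ 0 := fun {R} hR h =>
        hR (shift_inj (by show R.comp (X + 1) = _; rw [h, map_zero]))
      have n1 := alg_ne (pr_poly_ne hb' e)
      have n2 := alg_ne (pr_poly_ne hb' e')
      have n3 := alg_ne hB0
      have n4 := alg_ne (hsh hB0)
      rw [pr_div, pr_div, pr_poly, pr_poly, pr_poly, pr_poly, map_div₀, sig_poly, sig_poly] at hcc'
      have h1 : algebraMap ℂ[X] KC (pr b e * pr b' e' * (A.comp (X + 1) * B)) =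
          algebraMap ℂ[X] KC (pr b e' * pr b' e * (A * B.comp (X + 1))) := by
        rw [div_mul_div_comm, div_mul_div_comm, div_eq_div_iff (mul_ne_zero n1 n4) (mul_ne_zero n2 n3)] at hcc'
        simp only [map_mul]
        linear_combination hcc'
      exact hM e e' A B hA0 hB0 (alg_inj h1)
  exact key.comp Sum.inr Sum.inr_injective

end Pool.Agent.Q136.RH
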